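import Pool.Agent.H89.BRG.BRG
import Pool.Agent.H63.MC.CDef

/-!
# H89-BRG-QD: the theorems of BRG with the decomposition groups `dec (Q.P v)` of H63/MC

* `dc_dec`: `Dc K P` and `dec P` are the same group.
* `brg1q`, `brg2q`: `brg1`, `brg2` with the hypothesis at the primes `Q.P v`, `v ∈ S0`.
-/

set_option autoImplicit false

open scoped NumberField Pointwise
open IsDedekindDomain

noncomputable section

namespace H89.BRG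

open H63.MA H38.BB H38.BG H57.PC H57.BRA

theorem dc_dec {K : Type} [Field K] {Ω : Type} [Field Ω] [Algebra K Ω] (P : Ideal (𝓞 Ω))
    (σ : Gal(Ω/K)) : σ ∈ Dc K P ↔ σ ∈ dec (K := K) P := by
  constructor
  · intro h x
    have h1 : σ • P = P := h
    conv_lhs => rw [← h1]
    exact Ideal.smul_mem_pointwise_smul_iff
  · intro h
    change σ • P = P
    ext x
    rw [Ideal.mem_pointwise_smul_iff_inv_smul_mem]
    exact (dec (K := K) P).inv_mem h x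

variable {K : Type} [Field K] [NumberField K] {Ω : Type} [Field Ω] [Algebra K Ω] [IsAlgClosure K Ω]
  {p : ℕ} {ζ : K}

theorem qd_kl {X : Gal(Ω/K) → Gal(Ω/K) → ZMod p} {P : Ideal (𝓞 Ω)}
    (h : Kl X (dec (K := K) P : Set Gal(Ω/K))) : Kl X (Dc K P : Set Gal(Ω/K)) := by
  obtain ⟨l, hl, h1⟩ := h
  exact ⟨l, hl, fun σ hσ τ hτ => h1 σ ((dc_dec P σ).1 hσ) τ ((dc_dec P τ).1 hτ)⟩

theorem brg1q (hp : p.Prime) (hp2 : MOne p K) (hζ : IsPrimitiveRoot ζ p) (hz : Z2 p K)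
    {D : RD0 K p ζ} {L : LDs D Ω} (Q : DP K Ω) (Fr : FR L) {R : Type} [Group R] [Finite R]
    {e : R → R → ZMod p} (he : Coc p e) {ρ : Gal(Ω/K) →* R} (hρ : H38.ML.FT ρ) {n : ℕ}
    (c : Fin n → Kˣ) (hk : Kl (pb e ρ) (Zk p ζ c))
    (hS : ∀ v ∈ D.S0, Kl (pb e ρ) (dec (K := K) (Q.P v) : Set Gal(Ω/K)))
    (htm : ∀ v, v ∉ D.S0 → ∀ τ ∈ inr L v, ρ τ ^ p = 1)
    (hiv : ∀ v, v ∉ D.S0 → iv e (ρ (Fr.F v)) (ρ (L.t v)) = 0) : Tv (pb e ρ) :=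
  brg1 hp hp2 hζ hz Fr he hρ c hk
    (fun v hv => ⟨Q.P v, Q.prime v, Q.under v, qd_kl (hS v hv)⟩) htm hiv

theorem brg2q (hp : p.Prime) (hp2 : MOne p K) (hζ : IsPrimitiveRoot ζ p) (hz : Z2 p K)
    {D : RD0 K p ζ} {L : LDs D Ω} (Q : DP K Ω) (Fr : FR L) {R : Type} [Group R] [Finite R]
    {e : R → R → ZMod p} (he : Coc p e) {ρ : Gal(Ω/K) →* R} (hρ : H38.ML.FT ρ) {n : ℕ}
    (c : Fin n → Kˣ) (hk : Kl (pb e ρ) (Zk p ζ c))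
    (hS : ∀ v ∈ D.S0, Kl (pb e ρ) (dec (K := K) (Q.P v) : Set Gal(Ω/K)))
    (htm : ∀ v, v ∉ D.S0 → ∀ τ ∈ inr L v, ρ τ ^ p = 1)
    (T : Finset (Pl K)) (hT : ∀ v ∈ T, v ∉ D.S0)
    (hur : ∀ v, v ∉ D.S0 → v ∉ T → ρ (L.t v) = 1)
    (hnp : ∀ v ∈ T, ¬ (nm v).Prime → iv e (ρ (Fr.F v)) (ρ (L.t v)) = 0) :
    ∑ v ∈ T, iv e (ρ (Fr.F v)) (ρ (L.t v)) = 0 :=
  brg2 hp hp2 hζ hz Fr he hρ c hk
    (fun v hv => ⟨Q.P v, Q.prime v, Q.under v, qd_kl (hS v hv)⟩) htm T hT hur hnp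

end H89.BRG
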