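import Pool.Agent.H57.CC.Def
import Pool.Agent.H57.LOW.Lob
import Pool.Agent.H57.LOW.Epc

/-!
# H89-BRG-TWL: small lemmas on linear forms (for H57/CC/Tch)

* `BFT p m l`: bilinear forms on `V × U`.
* `tl_dt`: linear forms on `F_p^n` are of the form `dt`. `tl_dtadd`: additivity.
-/

set_option autoImplicit false

open scoped Classical

noncomputable section

namespace H89.BRG

open H57.PC H57.LOW H57.CC H57.BRA H63.MA H77.PC3

/-- bilinear forms on `V × U` -/
abbrev BFT (p m l : ℕ) : Type :=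
  (Fin l → ZMod p) →ₗ[ZMod p] (Fin m → ZMod p) →ₗ[ZMod p] ZMod p

variable {p m l w N : ℕ} {P R : Type} [Group P] [Group R]

theorem tl_dt {n : ℕ} (g : (Fin n → ZMod p) →ₗ[ZMod p] ZMod p) (u : Fin n → ZMod p) :
    dt (fun k => g (Pi.single k 1)) u = g u := by
  conv_rhs => rw [← epc_exp u]
  rw [map_sum]
  unfold dt
  refine Finset.sum_congr rfl fun k _ => ?_
  rw [map_smul, smul_eq_mul, mul_comm]

theorem tl_dtadd {n : ℕ} (θ θ' u : Fin n → ZMod p) : dt (θ + θ') u = dt θ u + dt θ' u := by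
  simp only [dt, Pi.add_apply, add_mul, Finset.sum_add_distrib]

end H89.BRG
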