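import Pool.Agent.H57.CC.VS
import Pool.Agent.H89.BRG.BR3
import Pool.Agent.H89.BRG.TwL

/-!
# H89-BRG-TWG: the sum of the local pairings as a function of the local data at `S0` (for H57/CC/Tch)

* `dl lam Fr e ρ`: the sum over all primes outside `S0` of `lam v * iv e (ρ (F v)) (ρ (t v))`.
* `dl_sum`: as a finite sum. `dl_teq`: equal for homomorphisms equal at `S0`.
* `lamA`: the difference for a twist; `dl_tw`, `lamA_add`.
* `tg_fac`: an additive function which vanishes on the kernel of `ev` is a linear form of `ev`.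
* `twg`: for all `ρ` with level one equal to that of `ρ₁` at the virtual primes the sum is `τ + ∑ j, η₀ j (ρ (σ j) ρ₁ (σ j)⁻¹)`.
-/

set_option autoImplicit false

open scoped NumberField
open IsDedekindDomain
open scoped Classical

noncomputable section

namespace H89.BRG

open H57.PC H57.LOW H57.CC H57.BRA H63.MA H38.BB H38.BG H77.PC3

variable {K : Type} [Field K] [NumberField K] {p : ℕ} {ζ : K} {Ω : Type} [Field Ω]
  [Algebra K Ω] [IsAlgClosure K Ω] {m l w N k : ℕ} {P R : Type} [Group P] [Group R]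

/-- the sum of the local pairings -/
def dl {D : RD0 K p ζ} {L : LDs D Ω} (lam : Pl K → ZMod p) (Fr : FR L) (e : R → R → ZMod p)
    (ρ : Gal(Ω/K) →* R) : ZMod p :=
  ∑ᶠ v, (if v ∈ D.S0 then 0 else lam v * iv e (ρ (Fr.F v)) (ρ (L.t v)))

theorem dl_sum {D : RD0 K p ζ} {L : LDs D Ω} (lam : Pl K → ZMod p) (Fr : FR L)
    {e : R → R → ZMod p} (he : Coc p e) (ρ : Gal(Ω/K) →* R) (T : Finset (Pl K))
    (hT : ∀ v ∈ T, v ∉ D.S0) (hur : ∀ v, v ∉ D.S0 → v ∉ T → ρ (L.t v) = 1) :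
    dl lam Fr e ρ = ∑ v ∈ T, lam v * iv e (ρ (Fr.F v)) (ρ (L.t v)) := by
  unfold dl
  rw [finsum_eq_sum_of_support_subset (s := T) _ (by
    intro v hv
    by_contra hvT
    apply hv
    by_cases hvS : v ∈ D.S0
    · exact if_pos hvS
    · refine (if_neg hvS).trans ?_
      rw [hur v hvS hvT, iv_swap, iv_one_left he, neg_zero, mul_zero])]
  exact Finset.sum_congr rfl fun v hv => if_neg (hT v hv)

theorem dl_teq [Finite R] (hp : p.Prime) (h2 : p ≠ 2) (hζ : IsPrimitiveRoot ζ p) (hz : Z2 p K)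
    {D : RD0 K p ζ} {L : LDs D Ω} (Q : DP K Ω) (Fr : FR L) (Dg : GP p m l w N P R)
    {e : R → R → ZMod p} (he : Coc p e)
    (he0 : ∀ v v', Dg.π v = 1 → Dg.π v' = 1 → e v v' = 0) {lam : Pl K → ZMod p}
    (hlam : IsRec p ζ lam) (ρ ρ' : Gal(Ω/K) →* R) (h : H38.ML.FT ρ) (h' : H38.ML.FT ρ')
    (hS : ∀ v ∈ D.S0, ∀ σ ∈ dec (K := K) (Q.P v), ρ σ = ρ' σ) :
    dl lam Fr e ρ = dl lam Fr e ρ' := by
  have hf := ram_finite hp D L ρ h
  have hf' := ram_finite hp D L ρ' h'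
  obtain ⟨T, hT⟩ : ∃ T : Finset (Pl K), ∀ v, v ∈ T ↔
      ((v ∉ D.S0 ∧ ρ (L.t v) ≠ 1) ∨ (v ∉ D.S0 ∧ ρ' (L.t v) ≠ 1)) :=
    ⟨(hf.union hf').toFinset, fun v => by rw [Set.Finite.mem_toFinset]; rfl⟩
  have hT1 : ∀ v ∈ T, v ∉ D.S0 := by
    intro v hv
    rcases (hT v).1 hv with h1 | h1
    · exact h1.1
    · exact h1.1
  have hT2 : ∀ v, v ∉ D.S0 → v ∉ T → ρ (L.t v) = 1 ∧ ρ' (L.t v) = 1 := by
    intro v hv hvT
    refine ⟨?_, ?_⟩
    · by_contra h1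
      exact hvT ((hT v).2 (Or.inl ⟨hv, h1⟩))
    · by_contra h1
      exact hvT ((hT v).2 (Or.inr ⟨hv, h1⟩))
  rw [dl_sum lam Fr he ρ T hT1 fun v hv hvT => (hT2 v hv hvT).1,
    dl_sum lam Fr he ρ' T hT1 fun v hv hvT => (hT2 v hv hvT).2]
  have ka : ∀ χ : Gal(Ω/K) →* R, H38.ML.FT χ → ∃ a : Fin m → Kˣ, ∀ c (σ : Gal(Ω/K)),
      kk p ζ (a c) σ = Multiplicative.toAdd (Dg.π (χ σ)) c := by
    intro χ hχ
    obtain ⟨E, hE, hE2⟩ := hχ
    have h1 : ∀ c, ∃ a : Kˣ, ∀ σ : Gal(Ω/K),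
        kk p ζ a σ = Multiplicative.toAdd (Dg.π (χ σ)) c := fun c =>
      vs_kc hp hζ _ (fun σ τ => by
        simp only [map_mul, toAdd_mul, Pi.add_apply]) ⟨E, hE, fun u hu => by
        have h1 : χ u = 1 := MonoidHom.mem_ker.1 (hE2 hu)
        rw [h1, map_one]
        rfl⟩
    choose a ha using h1
    exact ⟨a, ha⟩
  obtain ⟨a, ha⟩ := ka ρ h
  obtain ⟨a', ha'⟩ := ka ρ' h'
  refine brg3d hp (mone_odd hp h2 K) hζ hz Q Fr he h h' (Fin.append a a') ?_ hS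
    (rexp hp h2 Dg) T hT1 hT2 hlam
  have hz1 : ∀ σ ∈ (Zk p ζ (Fin.append a a') : Set Gal(Ω/K)),
      Dg.π (ρ σ) = 1 ∧ Dg.π (ρ' σ) = 1 := by
    intro σ hσ
    refine ⟨?_, ?_⟩
    · apply Multiplicative.toAdd.injective
      funext c
      have h1 := hσ (Fin.castAdd m c)
      rw [Fin.append_left, ha] at h1
      exact h1
    · apply Multiplicative.toAdd.injective
      funext c
      have h1 := hσ (Fin.natAdd m c)
      rw [Fin.append_right, ha'] at h1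
      exact h1
  intro σ hσ τ hτ
  exact ⟨he0 _ _ (hz1 σ hσ).1 (hz1 τ hτ).1, he0 _ _ (hz1 σ hσ).2 (hz1 τ hτ).2⟩

/-- the difference for a twist -/
def lamA {D : RD0 K p ζ} {L : LDs D Ω} (lam : Pl K → ZMod p) (Fr : FR L)
    (Dg : GP p m l w N P R) (T : BFT p m l) (ρ : Gal(Ω/K) →* R) (a : Fin l → Kˣ) : ZMod p :=
  ∑ᶠ v, (if v ∈ D.S0 then 0 else lam v *
    (T (fun c => kk p ζ (a c) (Fr.F v)) (Multiplicative.toAdd (Dg.π (ρ (L.t v)))) -
      T (fun c => kk p ζ (a c) (L.t v)) (Multiplicative.toAdd (Dg.π (ρ (Fr.F v))))))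

private theorem lamA_fin (hp : p.Prime) (hζ : IsPrimitiveRoot ζ p) {D : RD0 K p ζ}
    {L : LDs D Ω} (lam : Pl K → ZMod p) (Fr : FR L) (Dg : GP p m l w N P R) (T : BFT p m l)
    (ρ : Gal(Ω/K) →* R) (h : H38.ML.FT ρ) (a : Fin l → Kˣ) :
    (Function.support fun v => (if v ∈ D.S0 then 0 else lam v *
    (T (fun c => kk p ζ (a c) (Fr.F v)) (Multiplicative.toAdd (Dg.π (ρ (L.t v)))) -
      T (fun c => kk p ζ (a c) (L.t v)) (Multiplicative.toAdd (Dg.π (ρ (Fr.F v))))))).Finite := by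
  have hf := ram_finite hp D L ρ h
  have hf' := ram_finite hp D L (kch ζ Ω Dg a) (kch_ft hp hζ Dg a)
  refine (hf.union hf').subset ?_
  intro v hv
  by_contra hvn
  apply hv
  by_cases hvS : v ∈ D.S0
  · exact if_pos hvS
  · have h1 : ρ (L.t v) = 1 := by
      by_contra h1
      exact hvn (Or.inl ⟨hvS, h1⟩)
    have h2 : kch ζ Ω Dg a (L.t v) = 1 := by
      by_contra h1
      exact hvn (Or.inr ⟨hvS, h1⟩)
    have h3 : (fun c => kk p ζ (a c) (L.t v)) = 0 := by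
      funext c
      rw [← kch_cv Dg a (L.t v) c, h2, cv_one]
      rfl
    simp only [if_neg hvS, h1, h3, map_one, toAdd_one, map_zero, LinearMap.zero_apply, sub_zero,
      mul_zero]

theorem lamA_add (hp : p.Prime) (hζ : IsPrimitiveRoot ζ p) {D : RD0 K p ζ}
    {L : LDs D Ω} (lam : Pl K → ZMod p) (Fr : FR L) (Dg : GP p m l w N P R) (T : BFT p m l)
    (ρ : Gal(Ω/K) →* R) (h : H38.ML.FT ρ) (a a' : Fin l → Kˣ) :
    lamA lam Fr Dg T ρ (a * a') = lamA lam Fr Dg T ρ a + lamA lam Fr Dg T ρ a' := by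
  unfold lamA
  rw [← finsum_add_distrib (lamA_fin hp hζ lam Fr Dg T ρ h a)
    (lamA_fin hp hζ lam Fr Dg T ρ h a')]
  refine finsum_congr fun v => ?_
  by_cases hvS : v ∈ D.S0
  · rw [if_pos hvS, if_pos hvS, if_pos hvS, add_zero]
  · rw [if_neg hvS, if_neg hvS, if_neg hvS]
    have h1 : ∀ σ : Gal(Ω/K), (fun c => kk p ζ ((a * a') c) σ) =
        (fun c => kk p ζ (a c) σ) + fun c => kk p ζ (a' c) σ := by
      intro σ
      funext c
      rw [Pi.mul_apply, kk_mul_arg hp hζ, Pi.add_apply]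
    rw [h1, h1, map_add, map_add, LinearMap.add_apply, LinearMap.add_apply]
    ring

theorem dl_tw [Finite R] (hp : p.Prime) (h2 : p ≠ 2) (hζ : IsPrimitiveRoot ζ p)
    {D : RD0 K p ζ} {L : LDs D Ω} (Fr : FR L) (Dg : GP p m l w N P R) (T : BFT p m l)
    {e : R → R → ZMod p} (he : Coc p e)
    (hiv : ∀ v r, Dg.π v = 1 →
      iv e v r = T (fun k => Dg.cv k v) (Multiplicative.toAdd (Dg.π r)))
    (lam : Pl K → ZMod p) (ρ : Gal(Ω/K) →* R) (h : H38.ML.FT ρ) (a : Fin l → Kˣ) :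
    dl lam Fr e (tw Dg (kch ζ Ω Dg a) ρ (kch_pi Dg a)) =
      dl lam Fr e ρ + lamA lam Fr Dg T ρ a := by
  unfold dl lamA
  have hs : (Function.support fun v : Pl K => (if v ∈ D.S0 then 0 else
      lam v * iv e (ρ (Fr.F v)) (ρ (L.t v)))).Finite := by
    refine (ram_finite hp D L ρ h).subset ?_
    intro v hv
    by_contra hvn
    apply hv
    by_cases hvS : v ∈ D.S0
    · exact if_pos hvS
    · have h1 : ρ (L.t v) = 1 := by
        by_contra h1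
        exact hvn ⟨hvS, h1⟩
      simp only [if_neg hvS]
      rw [h1, iv_swap, iv_one_left he, neg_zero, mul_zero]
  rw [← finsum_add_distrib hs (lamA_fin hp hζ lam Fr Dg T ρ h a)]
  refine finsum_congr fun v => ?_
  by_cases hvS : v ∈ D.S0
  · rw [if_pos hvS, if_pos hvS, if_pos hvS, add_zero]
  · rw [if_neg hvS, if_neg hvS, if_neg hvS, tw_apply, tw_apply]
    obtain ⟨F, hF⟩ : ∃ F, F = Fr.F v := ⟨_, rfl⟩
    obtain ⟨t, ht⟩ : ∃ t, t = L.t v := ⟨_, rfl⟩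
    have hc : ρ F * ρ t = ρ t * ρ F := by
      rw [hF, ht]
      exact Fr.com v hvS R ρ h fun τ _ => rexp hp h2 Dg _
    have hπ : ∀ σ : Gal(Ω/K), Dg.π (kch ζ Ω Dg a σ) = 1 := kch_pi Dg a
    have hcv : ∀ σ : Gal(Ω/K), (fun c => Dg.cv c (kch ζ Ω Dg a σ)) =
        fun c => kk p ζ (a c) σ := fun σ => funext fun c => kch_cv Dg a σ c
    rw [← hF, ← ht]
    have h1 : iv e (kch ζ Ω Dg a F * ρ F) (kch ζ Ω Dg a t * ρ t) =
        T (fun c => kk p ζ (a c) F) (Multiplicative.toAdd (Dg.π (ρ t))) -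
          T (fun c => kk p ζ (a c) t) (Multiplicative.toAdd (Dg.π (ρ F))) +
          iv e (ρ F) (ρ t) := by
      have c1 : kch ζ Ω Dg a F * (kch ζ Ω Dg a t * ρ t) =
          (kch ζ Ω Dg a t * ρ t) * kch ζ Ω Dg a F := Dg.vcen _ (hπ F) _
      have c2 : ρ F * (kch ζ Ω Dg a t * ρ t) = (kch ζ Ω Dg a t * ρ t) * ρ F := by
        rw [← mul_assoc, ← Dg.vcen _ (hπ t) (ρ F), mul_assoc, hc, mul_assoc]
      rw [iv_mul_left he c1 c2, hiv _ _ (hπ F), hcv, map_mul, hπ, one_mul,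
        iv_mul_right he (Dg.vcen _ (hπ t) (ρ F)).symm hc, iv_swap (kch ζ Ω Dg a t) (ρ F),
        hiv _ _ (hπ t), hcv]
      ring
    rw [h1]
    ring

theorem tg_fac (hp : p.Prime) {A : Type} [AddCommGroup A]
    (ev : A →+ (Fin k → Fin l → ZMod p)) (Λ : A →+ ZMod p) (h : ∀ a, ev a = 0 → Λ a = 0) :
    ∃ η₀ : Fin k → Fin l → ZMod p, ∀ a, Λ a = ∑ j, dt (η₀ j) (ev a j) := by
  have : Fact p.Prime := ⟨hp⟩
  have : NeZero p := ⟨hp.ne_zero⟩
  have hsm : ∀ (c : ZMod p) (a : A), c • ev a = ev (c.val • a) := by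
    intro c a
    rw [map_nsmul]
    funext j i
    rw [Pi.smul_apply, Pi.smul_apply, smul_eq_mul, Pi.smul_apply, Pi.smul_apply, nsmul_eq_mul,
      ZMod.natCast_zmod_val]
  obtain ⟨S, hS⟩ : ∃ S : Submodule (ZMod p) (Fin k → Fin l → ZMod p),
      ∀ y, y ∈ S ↔ ∃ a, ev a = y :=
    ⟨{ carrier := Set.range ev
       add_mem' := by
        rintro _ _ ⟨a, rfl⟩ ⟨b, rfl⟩
        exact ⟨a + b, map_add ev a b⟩
       zero_mem' := ⟨0, map_zero ev⟩
       smul_mem' := by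
        rintro c _ ⟨a, rfl⟩
        exact ⟨c.val • a, (hsm c a).symm⟩ }, fun y => Iff.rfl⟩
  have hX : ∀ y : S, ∃ a, ev a = (y : Fin k → Fin l → ZMod p) := fun y => (hS y).1 y.2
  choose X hX using hX
  have hwd : ∀ a b, ev a = ev b → Λ a = Λ b := by
    intro a b hab
    have h1 := h (a - b) (by rw [map_sub, hab, sub_self])
    rw [map_sub] at h1
    exact sub_eq_zero.1 h1
  obtain ⟨f, hf⟩ : ∃ f : S →+ ZMod p, ∀ y, f y = Λ (X y) :=
    ⟨AddMonoidHom.mk' (fun y => Λ (X y)) (by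
      intro y y'
      rw [← map_add]
      apply hwd
      rw [hX, map_add, hX, hX]
      rfl), fun y => rfl⟩
  obtain ⟨g, hg⟩ := LinearMap.exists_extend (f.toZModLinearMap p)
  refine ⟨fun j c => g (Pi.single j (Pi.single c 1)), fun a => ?_⟩
  have h1 : g (ev a) = Λ a := by
    have hm : ev a ∈ S := (hS _).2 ⟨a, rfl⟩
    have h2 := LinearMap.congr_fun hg ⟨_, hm⟩
    have h3 : g (ev a) = f ⟨_, hm⟩ := h2
    rw [h3, hf]
    exact hwd _ _ (hX _)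
  rw [← h1]
  have h2 : ev a = ∑ j, Pi.single (M := fun _ => Fin l → ZMod p) j (ev a j) := by
    rw [Finset.univ_sum_single]
  conv_lhs => rw [h2]
  rw [map_sum]
  refine Finset.sum_congr rfl fun j _ => ?_
  exact (tl_dt (g.comp (LinearMap.single (ZMod p) (fun _ : Fin k => Fin l → ZMod p) j))
    (ev a j)).symm

theorem twg [NeZero p] [Finite R] (hp : p.Prime) (h2 : p ≠ 2) (hζ : IsPrimitiveRoot ζ p)
    (hz : Z2 p K) {D : RD0 K p ζ} {L : LDs D Ω} (Q : DP K Ω) (Fr : FR L)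
    (Dg : GP p m l w N P R) (T : BFT p m l) {e : R → R → ZMod p} (he : Coc p e)
    (he0 : ∀ v v', Dg.π v = 1 → Dg.π v' = 1 → e v v' = 0)
    (hiv : ∀ v r, Dg.π v = 1 →
      iv e v r = T (fun k => Dg.cv k v) (Multiplicative.toAdd (Dg.π r)))
    {lam : Pl K → ZMod p} (hlam : IsRec p ζ lam) (X : VP K Ω p l k R) (hX : X.Ok D Q)
    (ρ₁ : Gal(Ω/K) →* R) (h₁ : H38.ML.FT ρ₁) :
    ∃ (τ : ZMod p) (η₀ : Fin k → Fin l → ZMod p), ∀ ρ : Gal(Ω/K) →* R, H38.ML.FT ρ →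
      (∀ j, Dg.π (ρ (X.σ j)) = Dg.π (ρ₁ (X.σ j))) → dl lam Fr e ρ =
        τ + ∑ j, dt (η₀ j) (fun c => Dg.cv c (ρ (X.σ j) * (ρ₁ (X.σ j))⁻¹)) := by
  have hp2 := mone_odd hp h2 K
  have hvan : ∀ a : Fin l → Kˣ, (∀ j c, kk p ζ (a c) (X.σ j) = 0) →
      lamA lam Fr Dg T ρ₁ a = 0 := by
    intro a ha
    have h1 := dl_tw hp h2 hζ Fr Dg T he hiv lam ρ₁ h₁ a
    have h3 := dl_teq hp h2 hζ hz Q Fr Dg he he0 hlam
      (tw Dg (kch ζ Ω Dg a) ρ₁ (kch_pi Dg a)) ρ₁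
      (tw_ft Dg _ ρ₁ (kch_pi Dg a) (kch_ft hp hζ Dg a) h₁) h₁ (by
        intro v hv σ hσ
        rw [tw_apply]
        have h4 : kch ζ Ω Dg a σ = 1 := by
          refine Dg.vinj _ (kch_pi Dg a σ) fun c => ?_
          rw [kch_cv]
          exact hX.det (a c) (fun j => ha j c) v hv σ hσ
        rw [h4, one_mul])
    rw [h3] at h1
    exact left_eq_add.1 h1
  obtain ⟨ev, hev⟩ : ∃ ev : Additive (Fin l → Kˣ) →+ (Fin k → Fin l → ZMod p),
      ∀ a j c, ev (Additive.ofMul a) j c = kk p ζ (a c) (X.σ j) :=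
    ⟨AddMonoidHom.mk' (fun a j c => kk p ζ ((Additive.toMul a) c) (X.σ j)) (by
      intro a b
      funext j c
      rw [toMul_add, Pi.mul_apply, kk_mul_arg hp hζ]
      rfl), fun a j c => rfl⟩
  obtain ⟨Λ, hΛ⟩ : ∃ Λ : Additive (Fin l → Kˣ) →+ ZMod p,
      ∀ a, Λ (Additive.ofMul a) = lamA lam Fr Dg T ρ₁ a :=
    ⟨AddMonoidHom.mk' (fun a => lamA lam Fr Dg T ρ₁ (Additive.toMul a)) (by
      intro a b
      rw [toMul_add, lamA_add hp hζ lam Fr Dg T ρ₁ h₁]), fun a => rfl⟩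
  obtain ⟨η₀, hη₀⟩ := tg_fac hp ev Λ (by
    intro a ha
    have h1 := hΛ (Additive.toMul a)
    rw [ofMul_toMul] at h1
    rw [h1]
    refine hvan _ fun j c => ?_
    have h3 := hev (Additive.toMul a) j c
    rw [ofMul_toMul, ha] at h3
    exact h3.symm)
  refine ⟨dl lam Fr e ρ₁, η₀, fun ρ h hπ => ?_⟩
  have h0 := (vs_one hp hp2 hζ Dg X hX ρ ρ₁ h h₁).1 hπ
  have h3 := vs_chi hp hζ Dg ρ ρ₁ h h₁ h0
  choose a ha using h3
  have h4 : dl lam Fr e ρ = dl lam Fr e (tw Dg (kch ζ Ω Dg a) ρ₁ (kch_pi Dg a)) := by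
    refine dl_teq hp h2 hζ hz Q Fr Dg he he0 hlam ρ _ h
      (tw_ft Dg _ ρ₁ (kch_pi Dg a) (kch_ft hp hζ Dg a) h₁) ?_
    intro v hv σ hσ
    rw [tw_apply]
    have h5 : kch ζ Ω Dg a σ = ρ σ * (ρ₁ σ)⁻¹ := by
      refine v_ext Dg _ _ (kch_pi Dg a σ) (by
        rw [map_mul, map_inv, h0 v hv σ hσ, mul_inv_cancel]) fun c => ?_
      rw [kch_cv]
      exact ha c v hv σ hσ
    rw [h5, inv_mul_cancel_right]
  rw [h4, dl_tw hp h2 hζ Fr Dg T he hiv lam ρ₁ h₁ a, ← hΛ, hη₀]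
  congr 1
  refine Finset.sum_congr rfl fun j _ => ?_
  congr 1
  funext c
  obtain ⟨v, hv, hσ⟩ := hX.mem j
  rw [hev]
  exact ha c v hv _ hσ

end H89.BRG
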