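import Pool.Agent.H89.BRG.Dec
import Pool.Agent.H63.MA.WA

/-!
# [H89 BRG DEN] `K` is dense in the decomposition field, 150-250 lines. File Pool/Agent/H89/BRG/Den.lean

`E ⊆ Ω` finite and normal over `K`, `P` a prime of `𝓞 Ω`, `W` the prime of `E` under `P`, `x ∈ E` fixed by the decomposition group of `P`. Then `x` is `W`-adically approximated by elements of `K`.

Proof. `G = Gal(E/K)` acts on the primes of `E`; for `g ∈ G` let `g W` be the image, `W.valuation (g y) = (g⁻¹ W).valuation y`. `H = {g | g W = W}`.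
(1) every `g ∈ H` is the restriction of an element of `Dc K P`: lift `g` to `g' ∈ Γ` (`AlgEquiv.restrictNormalHom_surjective`); `g' P` and `P` lie over the same prime `W` of `𝓞 E`, so there is
`u ∈ Gal(Ω/E)` with `u g' P = P` (`Algebra.IsInvariant.exists_smul_of_under_eq_of_profinite`, see `ltr0_T` in Pool/Agent/H57/BRA/Ltr.lean: apply `ltr_conj` with `K := E`, `IsAlgClosure E Ω`). So `g x = x`.
(2) `wa_idem` in `E` for the finite set of the `g W`, `g ∈ G`: `e` with `W.valuation (e - 1) ≤ exp (-n)`, `(g W).valuation e ≤ exp (-n)` for `g ∉ H`. Let `e' = ∏_{h ∈ H} h e`: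
`W.valuation (e' - 1) ≤ exp (-n)`, `W.valuation (g e') ≤ exp (-n)` for `g ∉ H`, `h e' = e'` for `h ∈ H`.
(3) `y = x e'`, `a = (#H)⁻¹ Tr_{E/K} y`, `Algebra.trace_eq_sum_automorphisms`: `a - x = (#H)⁻¹ (∑_{h ∈ H} x (e' - 1) + ∑_{g ∉ H} g x * g e')`, of valuation
`≤ W.valuation (#H)⁻¹ * max_g W.valuation (g x) * exp (-n)`, `< δ` for large `n` (`wa_small_finset`).
`den_over`: if the prime `W` lies under `P`, it lies over `v`, where `v` is the prime of `K` under `P` (as `bcp_under`, elementwise).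
`den_prime`: for every prime `P` of `𝓞 Ω` over `v` and every number field `E ⊆ Ω` there is `W`.
-/

set_option autoImplicit false

open scoped NumberField Pointwise
open IsDedekindDomain

noncomputable section

namespace H89.BRG

open H63.MA H57.BRA

variable {K : Type} [Field K] [NumberField K] {Ω : Type} [Field Ω] [Algebra K Ω] [IsAlgClosure K Ω]

private theorem dn_int_smul {L : Type} [Field L] [NumberField L] [Algebra K L] (s : L ≃ₐ[K] L)
    {w w' : Pl L} (h : s • w.asIdeal = w'.asIdeal)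
    (a : 𝓞 L) : w'.intValuation (s • a) = w.intValuation a := by
  have key : ∀ n : ℕ, w'.intValuation (s • a) ≤ WithZero.exp (-(n : ℤ)) ↔
      w.intValuation a ≤ WithZero.exp (-(n : ℤ)) := by
    intro n
    rw [HeightOneSpectrum.intValuation_le_pow_iff_mem, HeightOneSpectrum.intValuation_le_pow_iff_mem,
      ← h, ← smul_pow', Ideal.smul_mem_pointwise_smul_iff]
  rcases eq_or_ne a 0 with rfl | ha
  · simp
  have hsa : s • a ≠ 0 := by
    rwa [Ne, smul_eq_zero_iff_eq]
  apply le_antisymm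
  · rw [HeightOneSpectrum.intValuation_eq_exp_neg_multiplicity w ha, key,
      HeightOneSpectrum.intValuation_eq_exp_neg_multiplicity w ha]
  · rw [HeightOneSpectrum.intValuation_eq_exp_neg_multiplicity w' hsa, ← key,
      HeightOneSpectrum.intValuation_eq_exp_neg_multiplicity w' hsa]

private theorem dn_val_smul {L : Type} [Field L] [NumberField L] [Algebra K L] (s : L ≃ₐ[K] L)
    {w w' : Pl L} (h : s • w.asIdeal = w'.asIdeal)
    (y : L) : w'.valuation L (s y) = w.valuation L y := by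
  obtain ⟨a, b, hb, rfl⟩ := IsFractionRing.div_surjective (A := 𝓞 L) y
  have e : ∀ a : 𝓞 L, s (algebraMap (𝓞 L) L a) = algebraMap (𝓞 L) L (s • a) := fun a => rfl
  rw [map_div₀, map_div₀, map_div₀, e, e, HeightOneSpectrum.valuation_of_algebraMap,
    HeightOneSpectrum.valuation_of_algebraMap, HeightOneSpectrum.valuation_of_algebraMap,
    HeightOneSpectrum.valuation_of_algebraMap, dn_int_smul s h, dn_int_smul s h]

/-- the conjugate prime -/
private def dnW {L : Type} [Field L] [NumberField L] [Algebra K L] (W : Pl L) (s : L ≃ₐ[K] L) :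
    Pl L where
  asIdeal := s • W.asIdeal
  isPrime := by
    have := W.isPrime
    infer_instance
  ne_bot := by
    intro h
    apply W.ne_bot
    have h1 := congrArg (fun I => s⁻¹ • I) h
    simp only [inv_smul_smul] at h1
    rw [h1]
    exact Ideal.map_bot

private theorem dn_prod_one {F : Type} [Field F] {ι : Type} (val : Valuation F (WithZero (Multiplicative ℤ)))
    (q : WithZero (Multiplicative ℤ)) (hq : q ≤ 1) (s : Finset ι) (f : ι → F)
    (h : ∀ i ∈ s, val (f i - 1) ≤ q) : val (∏ i ∈ s, f i - 1) ≤ q := by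
  classical
  induction s using Finset.induction_on with
  | empty =>
    rw [Finset.prod_empty, sub_self, map_zero]
    exact zero_le
  | insert i s hi ih =>
    have h1 := ih fun j hj => h j (Finset.mem_insert_of_mem hj)
    have h2 := h i (Finset.mem_insert_self i s)
    rw [Finset.prod_insert hi]
    have e1 : f i * ∏ j ∈ s, f j - 1 = (f i - 1) * ∏ j ∈ s, f j + (∏ j ∈ s, f j - 1) := by ring
    have h3 : val (∏ j ∈ s, f j) ≤ 1 := by
      have e2 : ∏ j ∈ s, f j = (∏ j ∈ s, f j - 1) + 1 := by ring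
      rw [e2]
      exact Valuation.map_add_le _ (h1.trans hq) (le_of_eq (map_one _))
    rw [e1]
    refine Valuation.map_add_le _ ?_ h1
    rw [map_mul]
    exact (mul_le_of_le_one_right' h3).trans h2

private theorem dn_prod_le {ι : Type} [DecidableEq ι] (q : WithZero (Multiplicative ℤ)) (hq : q ≤ 1)
    (s : Finset ι) (i₀ : ι) (hi₀ : i₀ ∈ s) (f : ι → WithZero (Multiplicative ℤ))
    (h : ∀ i ∈ s, f i ≤ q) : ∏ i ∈ s, f i ≤ q := by
  rw [← Finset.mul_prod_erase s f hi₀]
  have h1 : ∏ i ∈ s.erase i₀, f i ≤ 1 :=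
    Finset.prod_le_one' fun i hi => (h i (Finset.mem_of_mem_erase hi)).trans hq
  exact (mul_le_of_le_one_right' h1).trans (h i₀ hi₀)

theorem den_prime (E : IntermediateField K Ω) [NumberField E] (P : Ideal (𝓞 Ω)) (hP : P.IsPrime)
    {v : Pl K} (hv : P.under (𝓞 K) = v.asIdeal) :
    ∃ W : Pl E, P.under (𝓞 E) = W.asIdeal ∧ Over W v := by
  have h1 : (P.under (𝓞 E)).comap (algebraMap (𝓞 K) (𝓞 E)) = v.asIdeal := by
    rw [← hv]
    ext x
    rfl
  refine ⟨⟨P.under (𝓞 E), inferInstance, ?_⟩, rfl, h1⟩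
  intro h0
  rw [h0] at h1
  apply v.ne_bot
  rw [← h1, eq_bot_iff]
  intro x hx
  have h2 : algebraMap (𝓞 K) (𝓞 E) x = 0 := hx
  have h3 : algebraMap K E (x : K) = 0 := congrArg (fun z : 𝓞 E => (z : E)) h2
  have h4 : (x : K) = 0 := (map_eq_zero _).1 h3
  exact NumberField.RingOfIntegers.ext h4

/-- elements of the stabiliser fix `x` -/
private theorem dn_fix (E : IntermediateField K Ω) [NumberField E] [IsGalois K E]
    (P : Ideal (𝓞 Ω)) (hP : P.IsPrime) (W : Pl E) (hW : P.under (𝓞 E) = W.asIdeal) (x : E)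
    (hx : ∀ σ ∈ Dc K P, σ (x : Ω) = x) (g : E ≃ₐ[K] E) (hg : g • W.asIdeal = W.asIdeal) :
    g x = x := by
  have hgal : IsGalois K Ω := IsAlgClosure.isGalois K Ω
  have hclo : IsAlgClosure E Ω := bca_clo K E Ω
  obtain ⟨g', hg'⟩ := AlgEquiv.restrictNormalHom_surjective (F := K) (K₁ := E) Ω g
  have hg1 : ∀ y : E, g' (y : Ω) = ((g y : E) : Ω) := by
    intro y
    rw [← hg']
    exact (AlgEquiv.restrictNormal_commutes g' E y).symm
  have hg2 : ∀ y : E, g'⁻¹ (y : Ω) = ((g⁻¹ y : E) : Ω) := by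
    intro y
    have h1 := hg1 (g⁻¹ y)
    have h2 : g (g⁻¹ y) = y := by
      rw [← AlgEquiv.mul_apply, mul_inv_cancel, AlgEquiv.one_apply]
    rw [h2] at h1
    rw [← h1, ← AlgEquiv.mul_apply, inv_mul_cancel, AlgEquiv.one_apply]
  have hP2 : (g' • P).IsPrime := inferInstance
  have hu2 : (g' • P).under (𝓞 E) = W.asIdeal := by
    ext a
    rw [← hg, Ideal.mem_pointwise_smul_iff_inv_smul_mem, ← hW]
    change algebraMap (𝓞 E) (𝓞 Ω) a ∈ g' • P ↔ algebraMap (𝓞 E) (𝓞 Ω) (g⁻¹ • a) ∈ P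
    rw [Ideal.mem_pointwise_smul_iff_inv_smul_mem]
    have h1 : g'⁻¹ • (algebraMap (𝓞 E) (𝓞 Ω) a) = algebraMap (𝓞 E) (𝓞 Ω) (g⁻¹ • a) := by
      apply NumberField.RingOfIntegers.ext
      exact hg2 (a : E)
    rw [h1]
  obtain ⟨u, hu⟩ := ltr_conj (K := E) (Ω := Ω) hP2 hP hu2 hW
  have hD : rsK K E Ω u * g' ∈ Dc K P := by
    change (rsK K E Ω u * g') • P = P
    ext y
    rw [Ideal.mem_pointwise_smul_iff_inv_smul_mem, mul_inv_rev, mul_smul,
      ← Ideal.mem_pointwise_smul_iff_inv_smul_mem, ← map_inv, bcp_smul, hu]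
  have h1 := hx _ hD
  rw [AlgEquiv.mul_apply, hg1, rsK_apply] at h1
  have h2 : u (((g x : E) : Ω)) = ((g x : E) : Ω) := u.commutes (g x)
  rw [h2] at h1
  exact Subtype.ext h1

theorem den (E : IntermediateField K Ω) [NumberField E] [IsGalois K E] (P : Ideal (𝓞 Ω))
    (hP : P.IsPrime) (W : Pl E) (hW : P.under (𝓞 E) = W.asIdeal) (x : E)
    (hx : ∀ σ ∈ Dc K P, σ (x : Ω) = x) (δ : WithZero (Multiplicative ℤ)) (hδ : δ ≠ 0) :
    ∃ a : K, W.valuation E (x - algebraMap K E a) < δ := by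
  classical
  have hfd : FiniteDimensional K E := Module.Finite.of_restrictScalars_finite ℚ K E
  obtain ⟨H, hH⟩ : ∃ H : Finset (E ≃ₐ[K] E), ∀ g, g ∈ H ↔ g • W.asIdeal = W.asIdeal :=
    ⟨Finset.univ.filter fun g => g • W.asIdeal = W.asIdeal, fun g => by
      rw [Finset.mem_filter]
      exact and_iff_right (Finset.mem_univ g)⟩
  have hH1 : (1 : E ≃ₐ[K] E) ∈ H := (hH 1).2 (one_smul _ _)
  have hHm : ∀ g h, h ∈ H → (g * h ∈ H ↔ g ∈ H) := by
    intro g h hh
    rw [hH, hH, mul_smul, (hH h).1 hh]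
  have hcard : ((H.card : ℕ) : E) ≠ 0 := Nat.cast_ne_zero.2 (Finset.card_ne_zero_of_mem hH1)
  obtain ⟨C, hC⟩ : ∃ C : WithZero (Multiplicative ℤ), ∀ g : E ≃ₐ[K] E,
      W.valuation E (g x) ≤ C :=
    ⟨Finset.univ.sup fun g : E ≃ₐ[K] E => W.valuation E (g x),
      fun g => Finset.le_sup (f := fun g : E ≃ₐ[K] E => W.valuation E (g x)) (Finset.mem_univ g)⟩
  obtain ⟨n, hn⟩ := wa_small (C * (W.valuation E ((H.card : ℕ) : E))⁻¹) δ hδ
  have hn := hn n le_rfl
  obtain ⟨q, hq⟩ : ∃ q : WithZero (Multiplicative ℤ), q = WithZero.exp (-(n : ℤ)) := ⟨_, rfl⟩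
  have hq1 : q ≤ 1 := by
    rw [hq, ← WithZero.exp_zero, WithZero.exp_le_exp]
    have : (0 : ℤ) ≤ n := Int.natCast_nonneg n
    linarith
  obtain ⟨e, he⟩ := wa_idem (Finset.univ.image (dnW (K := K) W)) n W
  rw [← hq] at he hn
  have hmem : ∀ g : E ≃ₐ[K] E, dnW W g ∈ Finset.univ.image (dnW (K := K) W) := fun g =>
    Finset.mem_image_of_mem _ (Finset.mem_univ g)
  have he1 : W.valuation E (e - 1) ≤ q := by
    have h1 := he (dnW W 1) (hmem 1)
    have h2 : dnW W (1 : E ≃ₐ[K] E) = W := HeightOneSpectrum.ext (one_smul _ _)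
    rw [h2, if_pos rfl] at h1
    exact h1
  have he0 : ∀ g, g ∉ H → W.valuation E (g e) ≤ q := by
    intro g hg
    have h1 := he (dnW W g⁻¹) (hmem g⁻¹)
    have h2 : dnW W g⁻¹ ≠ W := by
      intro h
      apply hg
      rw [hH]
      have h3 : g⁻¹ • W.asIdeal = W.asIdeal := congrArg HeightOneSpectrum.asIdeal h
      conv_lhs => rw [← h3]
      rw [smul_inv_smul]
    rw [if_neg h2, sub_zero] at h1
    have h4 : g • (dnW W g⁻¹).asIdeal = W.asIdeal := smul_inv_smul g W.asIdeal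
    rw [dn_val_smul g h4]
    exact h1
  obtain ⟨e', he'⟩ : ∃ e' : E, e' = ∏ h ∈ H, h e := ⟨_, rfl⟩
  have he'1 : W.valuation E (e' - 1) ≤ q := by
    rw [he']
    refine dn_prod_one _ q hq1 H _ fun h hh => ?_
    have h1 : h e - 1 = h (e - 1) := by rw [map_sub, map_one]
    rw [h1, dn_val_smul h ((hH h).1 hh)]
    exact he1
  have he'0 : ∀ g, g ∉ H → W.valuation E (g e') ≤ q := by
    intro g hg
    rw [he', map_prod, map_prod]
    refine dn_prod_le q hq1 H 1 hH1 _ fun h hh => ?_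
    rw [← AlgEquiv.mul_apply]
    exact he0 _ fun h1 => hg ((hHm g h hh).1 h1)
  have he'H : ∀ g ∈ H, g e' = e' := by
    intro g hg
    rw [he', map_prod]
    refine Finset.prod_bij (fun h _ => g * h) (fun h hh => (hHm g h hh).2 hg)
      (fun a _ b _ hab => mul_left_cancel hab) (fun b hb => ⟨g⁻¹ * b, ?_, by
        rw [mul_inv_cancel_left]⟩) (fun h _ => by rw [AlgEquiv.mul_apply])
    rw [hH, mul_smul, (hH b).1 hb]
    have h3 := (hH g).1 hg
    conv_lhs => rw [← h3]
    rw [inv_smul_smul]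
  obtain ⟨y, hy⟩ : ∃ y : E, y = x * e' := ⟨_, rfl⟩
  have hterm : ∀ g : E ≃ₐ[K] E, W.valuation E (if g ∈ H then x - g y else -(g y)) ≤ q * C := by
    intro g
    by_cases hg : g ∈ H
    · rw [if_pos hg, hy, map_mul, dn_fix E P hP W hW x hx g ((hH g).1 hg), he'H g hg]
      have h1 : x - x * e' = -((e' - 1) * x) := by ring
      rw [h1, Valuation.map_neg, map_mul]
      have h2 := hC 1
      rw [AlgEquiv.one_apply] at h2
      exact mul_le_mul' he'1 h2
    · rw [if_neg hg, Valuation.map_neg, hy, map_mul, map_mul, mul_comm]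
      exact mul_le_mul' (he'0 g hg) (hC g)
  have hsum : W.valuation E (∑ g : E ≃ₐ[K] E, if g ∈ H then x - g y else -(g y)) ≤ q * C :=
    Valuation.map_sum_le _ fun g _ => hterm g
  have hsum2 : (∑ g : E ≃ₐ[K] E, if g ∈ H then x - g y else -(g y)) =
      (H.card : E) * x - ∑ g : E ≃ₐ[K] E, g y := by
    have h1 : ∀ g : E ≃ₐ[K] E, (if g ∈ H then x - g y else -(g y)) =
        (if g ∈ H then x else 0) - g y := by
      intro g
      split_ifs
      · rfl
      · rw [zero_sub]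
    rw [Finset.sum_congr rfl fun g _ => h1 g, Finset.sum_sub_distrib, Finset.sum_ite_mem,
      Finset.univ_inter, Finset.sum_const, nsmul_eq_mul]
  refine ⟨((H.card : ℕ) : K)⁻¹ * Algebra.trace K E y, ?_⟩
  have h1 : x - algebraMap K E (((H.card : ℕ) : K)⁻¹ * Algebra.trace K E y) =
      ((H.card : ℕ) : E)⁻¹ * ∑ g : E ≃ₐ[K] E, (if g ∈ H then x - g y else -(g y)) := by
    rw [hsum2, map_mul, map_inv₀, map_natCast, trace_eq_sum_automorphisms, mul_sub,
      inv_mul_cancel_left₀ hcard]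
  rw [h1, map_mul, map_inv₀]
  refine lt_of_le_of_lt ?_ hn
  calc (W.valuation E ((H.card : ℕ) : E))⁻¹ * W.valuation E
        (∑ g : E ≃ₐ[K] E, (if g ∈ H then x - g y else -(g y)))
      ≤ (W.valuation E ((H.card : ℕ) : E))⁻¹ * (q * C) := mul_le_mul_right hsum _
    _ = q * (C * (W.valuation E ((H.card : ℕ) : E))⁻¹) := by
        rw [mul_comm, mul_assoc]

end H89.BRG
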