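import Pool.Agent.H63.MA.WA

/-!
# [H89 BRG NF] continuity of the norm form, additive weak approximation, 60-120 lines. File Pool/Agent/H89/BRG/Nf.lean

* `nf_cont`: `val` a valuation on a field `F`. First `nf_prod`: if `val (f k - g k) ≤ ε`, `val (f k) ≤ C`, `val (g k) ≤ C` for `k ∈ s`, `1 ≤ C`, then
  `val (∏ f - ∏ g) ≤ ε * C ^ s.card` (induction; `∏ f f' - ∏ g g' = (f - g) ∏ f' + g (∏ f' - ∏ g')`, `Valuation.map_add_le`). For the sums: `val (∑ (a i - b i) z ^ i) ≤ max ..`:
  take `C ≥ 1`, `C ≥ val (z k ^ i)` and `C ≥ val (a i)` for `i, k < p` (finite sets; e.g. `C = ∏ max 1 ..` or `Finset.sup`), `ε ≤ 1`, then `val (b i) ≤ C`, all sums are `≤ C ^ 2`, the differences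
  `≤ ε C`. So `ε * C ^ (2 p + 1) < δ` is enough: `Γ₀ = ℤᵐ⁰`, so `ε = δ * exp (-1) * (C ^ (2 p + 1))⁻¹` (and `min` with `1`).
* `wa_add`: as the proof of `weak_approx` (Pool/Agent/H63/MA/WA.lean), additive: `x = ∑_{v ∈ T} e v * y v` with `wa_idem`, `wa_small_finset`.
-/

set_option autoImplicit false

open scoped NumberField
open IsDedekindDomain

noncomputable section

namespace H89.BRG

open H63.MA

private theorem nf_prod {F : Type} [Field F] (val : Valuation F (WithZero (Multiplicative ℤ)))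
    (s : Finset ℕ) (f g : ℕ → F) (ε C : WithZero (Multiplicative ℤ)) (hC : 1 ≤ C)
    (hf : ∀ k ∈ s, val (f k) ≤ C) (hg : ∀ k ∈ s, val (g k) ≤ C)
    (hfg : ∀ k ∈ s, val (f k - g k) ≤ ε) :
    val (∏ k ∈ s, f k - ∏ k ∈ s, g k) ≤ ε * C ^ s.card := by
  classical
  induction s using Finset.induction_on with
  | empty =>
    rw [Finset.prod_empty, Finset.prod_empty, sub_self, map_zero]
    exact zero_le
  | insert k s hk ih =>
    have hf' : ∀ j ∈ s, val (f j) ≤ C := fun j hj => hf j (Finset.mem_insert_of_mem hj)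
    have h1 := ih hf' (fun j hj => hg j (Finset.mem_insert_of_mem hj))
      (fun j hj => hfg j (Finset.mem_insert_of_mem hj))
    have h2 := hfg k (Finset.mem_insert_self k s)
    have h3 := hg k (Finset.mem_insert_self k s)
    have h4 : val (∏ j ∈ s, f j) ≤ C ^ s.card := by
      rw [map_prod]
      exact Finset.prod_le_pow_card s _ C hf'
    rw [Finset.prod_insert hk, Finset.prod_insert hk, Finset.card_insert_of_notMem hk]
    have e1 : f k * ∏ j ∈ s, f j - g k * ∏ j ∈ s, g j =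
        (f k - g k) * ∏ j ∈ s, f j + g k * (∏ j ∈ s, f j - ∏ j ∈ s, g j) := by ring
    rw [e1]
    refine Valuation.map_add_le _ ?_ ?_
    · rw [map_mul]
      refine (mul_le_mul' h2 h4).trans ?_
      exact mul_le_mul' le_rfl (pow_le_pow_right' hC (Nat.le_succ _))
    · rw [map_mul]
      refine (mul_le_mul' h3 h1).trans (le_of_eq ?_)
      rw [pow_succ, ← mul_assoc, mul_comm C ε, mul_assoc, mul_comm C]

theorem nf_cont {F : Type} [Field F] (val : Valuation F (WithZero (Multiplicative ℤ))) (p : ℕ)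
    (z a : ℕ → F) (δ : WithZero (Multiplicative ℤ)) (hδ : δ ≠ 0) :
    ∃ ε : WithZero (Multiplicative ℤ), ε ≠ 0 ∧ ∀ b : ℕ → F, (∀ i < p, val (a i - b i) < ε) →
      val (∏ k ∈ Finset.range p, ∑ i ∈ Finset.range p, b i * z k ^ i -
        ∏ k ∈ Finset.range p, ∑ i ∈ Finset.range p, a i * z k ^ i) < δ := by
  classical
  obtain ⟨C, hC1, hCa, hCz⟩ : ∃ C : WithZero (Multiplicative ℤ), 1 ≤ C ∧
      (∀ i < p, val (a i) ≤ C) ∧ ∀ k < p, ∀ i < p, val (z k ^ i) ≤ C := by
    refine ⟨1 ⊔ ((Finset.range p).sup (fun i => val (a i)) ⊔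
      (Finset.range p ×ˢ Finset.range p).sup (fun q => val (z q.1 ^ q.2))), le_sup_left, ?_, ?_⟩
    · intro i hi
      refine le_trans ?_ (le_trans le_sup_left le_sup_right)
      exact Finset.le_sup (f := fun i => val (a i)) (Finset.mem_range.2 hi)
    · intro k hk i hi
      refine le_trans ?_ (le_trans le_sup_right le_sup_right)
      exact Finset.le_sup (f := fun q : ℕ × ℕ => val (z q.1 ^ q.2)) (b := (k, i))
        (Finset.mem_product.2 ⟨Finset.mem_range.2 hk, Finset.mem_range.2 hi⟩)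
  obtain ⟨n, hn⟩ := wa_small (C * (C ^ 2) ^ p) δ hδ
  have hn := hn n le_rfl
  obtain ⟨ε, hε⟩ : ∃ ε : WithZero (Multiplicative ℤ), ε = WithZero.exp (-(n : ℤ)) := ⟨_, rfl⟩
  have hε1 : ε ≤ 1 := by
    rw [hε, ← WithZero.exp_zero, WithZero.exp_le_exp]
    have : (0 : ℤ) ≤ n := Int.natCast_nonneg n
    linarith
  rw [← hε] at hn
  refine ⟨ε, by rw [hε]; exact WithZero.exp_ne_zero, fun b hb => ?_⟩
  have hCb : ∀ i < p, val (b i) ≤ C := by
    intro i hi
    have e1 : b i = a i - (a i - b i) := by ring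
    rw [e1]
    refine (Valuation.map_sub _ _ _).trans (max_le (hCa i hi) ?_)
    exact (hb i hi).le.trans (hε1.trans hC1)
  have hC2 : 1 ≤ C ^ 2 := one_le_pow₀ hC1
  have hsum : ∀ x : ℕ → F, (∀ i < p, val (x i) ≤ C) → ∀ k ∈ Finset.range p,
      val (∑ i ∈ Finset.range p, x i * z k ^ i) ≤ C ^ 2 := by
    intro x hx k hk
    refine Valuation.map_sum_le _ fun i hi => ?_
    rw [map_mul, pow_two]
    exact mul_le_mul' (hx i (Finset.mem_range.1 hi))
      (hCz k (Finset.mem_range.1 hk) i (Finset.mem_range.1 hi))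
  have h1 := nf_prod val (Finset.range p) (fun k => ∑ i ∈ Finset.range p, b i * z k ^ i)
    (fun k => ∑ i ∈ Finset.range p, a i * z k ^ i) (ε * C) (C ^ 2) hC2 (hsum b hCb) (hsum a hCa) (by
      intro k hk
      rw [← Finset.sum_sub_distrib]
      refine Valuation.map_sum_le _ fun i hi => ?_
      rw [← sub_mul, map_mul, Valuation.map_sub_swap]
      exact mul_le_mul' (hb i (Finset.mem_range.1 hi)).le
        (hCz k (Finset.mem_range.1 hk) i (Finset.mem_range.1 hi)))
  rw [Finset.card_range, mul_assoc] at h1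
  exact lt_of_le_of_lt h1 hn

theorem wa_add {K : Type} [Field K] [NumberField K] (T : Finset (Pl K)) (y : Pl K → K)
    (δ : Pl K → WithZero (Multiplicative ℤ)) (hδ : ∀ v ∈ T, δ v ≠ 0) :
    ∃ x : K, ∀ v ∈ T, v.valuation K (x - y v) < δ v := by
  classical
  obtain ⟨n, hn⟩ := wa_small_finset (T ×ˢ T) (fun q => q.1.valuation K (y q.2))
    (fun q => δ q.1) (by
      intro q hq
      exact hδ _ (Finset.mem_product.1 hq).1)
  choose e he using fun v : Pl K => wa_idem T n v
  refine ⟨∑ v ∈ T, e v * y v, fun w hw => ?_⟩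
  have h1 : ∑ v ∈ T, e v * y v - y w = ∑ v ∈ T, (e v - if w = v then 1 else 0) * y v := by
    have h2 : y w = ∑ v ∈ T, (if w = v then 1 else 0) * y v := by
      rw [Finset.sum_eq_single w]
      · simp
      · intro v _ hvw
        rw [if_neg (Ne.symm hvw), zero_mul]
      · intro h
        exact absurd hw h
    conv_lhs => rw [h2]
    rw [← Finset.sum_sub_distrib]
    refine Finset.sum_congr rfl fun v _ => ?_
    ring
  rw [h1]
  refine Valuation.map_sum_lt _ (hδ w hw) fun v hv => ?_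
  rw [map_mul]
  refine lt_of_le_of_lt ?_ (hn (w, v) (Finset.mem_product.2 ⟨hw, hv⟩))
  exact mul_le_mul' (he v w hw) le_rfl

end H89.BRG
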