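import Pool.Agent.H89.BRG.Cnv
import Pool.Agent.H89.BRG.Den
import Pool.Agent.H89.BRG.Nf
import Pool.Agent.H63.MA.KumC

/-!
# [H89 BRG NRB] approximation of the norm equation over `K`, 120-200 lines. File Pool/Agent/H89/BRG/NrB.lean

`γ ^ p = c`; for `v ∈ S` there is a prime `P` of `𝓞 Ω` over `v` such that `kk c ∪ kk d` is trivial on the decomposition group of `P`. Then there are `b i ∈ K` such that the value
`n ∈ K` of the norm form `∏_{k<p} ∑_{i<p} b i * (ζ ^ k γ) ^ i` (if it is in `K`) is close to `d` at all `v ∈ S`.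

Proof. For `v ∈ S` choose `P v` and `a v i ∈ Ω` by `cnv` (`H = Dc K (P v)`). Let `E` be a finite Galois extension of `K` in `Ω` containing `γ` and all `a v i`, `v ∈ S`, `i < p`
(normal closure of `IntermediateField.adjoin K` of a finite set; see `gtriv_field` in Pool/Agent/H63/MA/GTriv.lean or `bqa` for the normal closure), `NumberField E` by
`NumberField.of_module_finite K E`. `den_prime`: `W v`. `nf_cont` for `(W v).valuation E`, `z k = ζ ^ k γ`, `a v`, `δ = (W v).valuation (d * p ^ 2)`: `ε v ≠ 0`. `den`: `b v i ∈ K` with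
`(W v).valuation (a v i - b v i) < ε v` for `i < p`. Take `t v ∈ K^*` with `(W v).valuation (t v) < ε v` (a power of an element with `ord v = 1`, `exists_unif`, `ord_inc`, `val_eq`).
`wa_add` with `δ v = v.valuation K (t v)`: `b i` with `v.valuation K (b i - b v i) < v.valuation K (t v)`, so `(W v).valuation (b i - b v i) < ε v` by `kumc_lt`. So
`(W v).valuation (a v i - b i) < ε v`, and `nf_cont` gives `(W v).valuation (n - d) < (W v).valuation (d * p ^ 2)` (the product in `E` maps to the product in `Ω`; `E → Ω` is injective).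
Then `v.valuation K (n - d) < v.valuation K (d * p ^ 2)`: otherwise `≥`, and the same for `W v` (`val_eq` and `ord_inc`, as in the proof of `kumc_lt`).
-/

set_option autoImplicit false

open scoped NumberField Pointwise
open IsDedekindDomain

noncomputable section

namespace H89.BRG

open H63.MA H57.BRA

private theorem nrb_field {K : Type} [Field K] [NumberField K] {Ω : Type} [Field Ω] [Algebra K Ω]
    [IsAlgClosure K Ω] (A : Finset Ω) : ∃ E : IntermediateField K Ω, FiniteDimensional K E ∧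
      IsGalois K E ∧ ∀ x ∈ A, x ∈ E := by
  have hgal : IsGalois K Ω := IsAlgClosure.isGalois K Ω
  have : Finite (A : Set Ω) := A.finite_toSet
  have hF : FiniteDimensional K (IntermediateField.adjoin K (A : Set Ω)) :=
    IntermediateField.finiteDimensional_adjoin fun x _ =>
      (Algebra.IsAlgebraic.isAlgebraic (R := K) x).isIntegral
  obtain ⟨F, hFdef⟩ : ∃ F : IntermediateField K Ω,
    F = IntermediateField.adjoin K (A : Set Ω) := ⟨_, rfl⟩
  have hFfd : FiniteDimensional K F := by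
    rw [hFdef]
    exact hF
  refine ⟨IntermediateField.normalClosure K F Ω, inferInstance, ⟨⟩, fun x hx => ?_⟩
  apply IntermediateField.le_normalClosure F
  rw [hFdef]
  exact IntermediateField.subset_adjoin K _ hx

private theorem nrb_le {K : Type} [Field K] [NumberField K] {L : Type} [Field L] [NumberField L]
    [Algebra K L] {w : Pl L} {v : Pl K} (h : Over w v) (x y : K)
    (hxy : w.valuation L (algebraMap K L x) < w.valuation L (algebraMap K L y)) :
    v.valuation K x < v.valuation K y := by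
  have hyL : algebraMap K L y ≠ 0 := by
    intro h0
    rw [h0, map_zero] at hxy
    exact absurd hxy not_lt_zero
  have hy : y ≠ 0 := fun h0 => hyL (by rw [h0, map_zero])
  by_cases hx : x = 0
  · rw [hx, map_zero]
    exact zero_lt_iff.2 ((map_ne_zero _).2 hy)
  · obtain ⟨e, he, hord⟩ := ord_inc (K := K) (L := L) h
    have e1 := val_eq v (Units.mk0 x hx)
    have e2 := val_eq v (Units.mk0 y hy)
    have e3 := val_eq w (inc K L (Units.mk0 x hx))
    have e4 := val_eq w (inc K L (Units.mk0 y hy))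
    rw [Units.val_mk0] at e1 e2
    have e5 : ((inc K L (Units.mk0 x hx) : Lˣ) : L) = algebraMap K L x := rfl
    have e6 : ((inc K L (Units.mk0 y hy) : Lˣ) : L) = algebraMap K L y := rfl
    rw [e5] at e3
    rw [e6] at e4
    rw [e3, e4, WithZero.exp_lt_exp, hord, hord] at hxy
    rw [e1, e2, WithZero.exp_lt_exp]
    have h2 : (0 : ℤ) < e := by exact_mod_cast he
    have h3 : (e : ℤ) * ord v (Units.mk0 y hy) < e * ord v (Units.mk0 x hx) := by linarith
    have h4 := lt_of_mul_lt_mul_left h3 h2.le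
    linarith

private theorem nrb_t {K : Type} [Field K] [NumberField K] {L : Type} [Field L] [NumberField L]
    [Algebra K L] {w : Pl L} {v : Pl K} (h : Over w v) (ε : WithZero (Multiplicative ℤ))
    (hε : ε ≠ 0) : ∃ t : K, t ≠ 0 ∧ w.valuation L (algebraMap K L t) < ε := by
  obtain ⟨π, hπ⟩ := H63.MA.exists_unif v
  obtain ⟨e, he, hord⟩ := ord_inc (K := K) (L := L) h
  obtain ⟨n, hn⟩ := wa_small 1 ε hε
  refine ⟨((π ^ n : Kˣ) : K), Units.ne_zero _, ?_⟩
  have e3 := val_eq w (inc K L (π ^ n))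
  have e5 : ((inc K L (π ^ n) : Lˣ) : L) = algebraMap K L ((π ^ n : Kˣ) : K) := rfl
  rw [e5] at e3
  rw [e3, hord, ord_pow, hπ, mul_one]
  have h1 := hn n le_rfl
  rw [mul_one] at h1
  refine lt_of_le_of_lt ?_ h1
  rw [WithZero.exp_le_exp]
  have h2 : (1 : ℤ) ≤ e := by exact_mod_cast he
  have h3 : (0 : ℤ) ≤ n := Int.natCast_nonneg n
  nlinarith

theorem nrb {K : Type} [Field K] [NumberField K] {Ω : Type} [Field Ω] [Algebra K Ω]
    [IsAlgClosure K Ω] {p : ℕ} (hp : p.Prime) {ζ : K} (hζ : IsPrimitiveRoot ζ p) (c d : Kˣ)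
    {γ : Ω} (hγ : γ ^ p = algebraMap K Ω (c : K)) (S : Finset (Pl K))
    (hS : ∀ v ∈ S, ∃ P : Ideal (𝓞 Ω), P.IsPrime ∧ P.under (𝓞 K) = v.asIdeal ∧
      Kl (fun σ τ : Gal(Ω/K) => cu p ζ c d σ τ) (Dc K P : Set Gal(Ω/K))) :
    ∃ b : ℕ → K, ∀ v ∈ S, ∀ n : K, algebraMap K Ω n = ∏ k ∈ Finset.range p,
      ∑ i ∈ Finset.range p, algebraMap K Ω (b i) * (algebraMap K Ω ζ ^ k * γ) ^ i →
      v.valuation K (n - (d : K)) < v.valuation K ((d : K) * (p : K) ^ 2) := by
  classical
  have h1 : ∀ v : Pl K, ∃ (P : Ideal (𝓞 Ω)) (a : ℕ → Ω), v ∈ S → P.IsPrime ∧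
      P.under (𝓞 K) = v.asIdeal ∧ (∀ i, ∀ σ ∈ Dc K P, σ (a i) = a i) ∧
      ∏ k ∈ Finset.range p, ∑ i ∈ Finset.range p, a i * (algebraMap K Ω ζ ^ k * γ) ^ i =
        algebraMap K Ω (d : K) := by
    intro v
    by_cases hv : v ∈ S
    · obtain ⟨P, hP, hPv, hk⟩ := hS v hv
      obtain ⟨a, ha1, ha2⟩ := cnv hp hζ (Dc K P) c d hγ hk
      exact ⟨P, a, fun _ => ⟨hP, hPv, ha1, ha2⟩⟩
    · exact ⟨⊥, fun _ => 0, fun h => absurd h hv⟩
  choose P a hPa using h1
  obtain ⟨E, hE1, hE2, hE3⟩ := nrb_field (K := K)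
    (insert γ (S.biUnion fun v => (Finset.range p).image (a v)))
  have hE4 : NumberField E := NumberField.of_module_finite K E
  have hγE : γ ∈ E := hE3 γ (Finset.mem_insert_self _ _)
  have haE : ∀ v ∈ S, ∀ i < p, a v i ∈ E := by
    intro v hv i hi
    exact hE3 _ (Finset.mem_insert_of_mem (Finset.mem_biUnion.2 ⟨v, hv,
      Finset.mem_image_of_mem _ (Finset.mem_range.2 hi)⟩))
  have h2 : ∀ v : Pl K, ∃ W : Pl E, v ∈ S → (P v).under (𝓞 E) = W.asIdeal ∧ Over W v := by
    intro v
    by_cases hv : v ∈ S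
    · obtain ⟨W, hW1, hW2⟩ := den_prime E (P v) (hPa v hv).1 (hPa v hv).2.1
      exact ⟨W, fun _ => ⟨hW1, hW2⟩⟩
    · obtain ⟨W, -⟩ := H63.MA.exists_over (L := E) v
      exact ⟨W, fun h => absurd h hv⟩
  choose W hW using h2
  obtain ⟨z, hz⟩ : ∃ z : ℕ → E, z = fun k => algebraMap K E ζ ^ k * ⟨γ, hγE⟩ := ⟨_, rfl⟩
  have hzc : ∀ k, ((z k : E) : Ω) = algebraMap K Ω ζ ^ k * γ := by
    intro k
    rw [hz]
    rfl
  obtain ⟨a', ha'⟩ : ∃ a' : Pl K → ℕ → E, a' = fun v i =>
      if h : a v i ∈ E then ⟨a v i, h⟩ else 0 := ⟨_, rfl⟩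
  have hac : ∀ v ∈ S, ∀ i < p, ((a' v i : E) : Ω) = a v i := by
    intro v hv i hi
    rw [ha']
    simp only [dif_pos (haE v hv i hi)]
  have h3 : ∀ v : Pl K, ∃ ε : WithZero (Multiplicative ℤ), ε ≠ 0 ∧ ∀ b : ℕ → E,
      (∀ i < p, (W v).valuation E (a' v i - b i) < ε) →
      (W v).valuation E (∏ k ∈ Finset.range p, ∑ i ∈ Finset.range p, b i * z k ^ i -
        ∏ k ∈ Finset.range p, ∑ i ∈ Finset.range p, a' v i * z k ^ i) <
        (W v).valuation E (algebraMap K E ((d : K) * (p : K) ^ 2)) := by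
    intro v
    refine nf_cont ((W v).valuation E) p z (a' v) _ ?_
    rw [Valuation.ne_zero_iff, map_ne_zero]
    exact mul_ne_zero d.ne_zero (pow_ne_zero _ (Nat.cast_ne_zero.2 hp.ne_zero))
  choose ε hε0 hε using h3
  have h4 : ∀ (v : Pl K) (i : ℕ), ∃ b : K, v ∈ S → i < p →
      (W v).valuation E (a' v i - algebraMap K E b) < ε v := by
    intro v i
    by_cases hv : v ∈ S
    · by_cases hi : i < p
      · obtain ⟨b, hb⟩ := den E (P v) (hPa v hv).1 (W v) (hW v hv).1 (a' v i) (by
          intro σ hσ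
          rw [hac v hv i hi]
          exact (hPa v hv).2.2.1 i σ hσ) (ε v) (hε0 v)
        exact ⟨b, fun _ _ => hb⟩
      · exact ⟨0, fun _ h => absurd h hi⟩
    · exact ⟨0, fun h => absurd h hv⟩
  choose bb hbb using h4
  have h5 : ∀ v : Pl K, ∃ t : K, t ≠ 0 ∧ (v ∈ S →
      (W v).valuation E (algebraMap K E t) < ε v) := by
    intro v
    by_cases hv : v ∈ S
    · obtain ⟨t, ht0, ht⟩ := nrb_t (hW v hv).2 (ε v) (hε0 v)
      exact ⟨t, ht0, fun _ => ht⟩
    · exact ⟨1, one_ne_zero, fun h => absurd h hv⟩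
  choose t ht0 ht using h5
  have h6 : ∀ i : ℕ, ∃ x : K, ∀ v ∈ S, v.valuation K (x - bb v i) < v.valuation K (t v) :=
    fun i => wa_add S (fun v => bb v i) (fun v => v.valuation K (t v))
      fun v _ => (Valuation.ne_zero_iff _).2 (ht0 v)
  choose b hb using h6
  refine ⟨b, fun v hv n hn => ?_⟩
  have h7 := hε v (fun i => algebraMap K E (b i)) (by
    intro i hi
    have e1 : a' v i - algebraMap K E (b i) =
        (a' v i - algebraMap K E (bb v i)) + algebraMap K E (bb v i - b i) := by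
      rw [map_sub]
      ring
    rw [e1]
    refine Valuation.map_add_lt _ (hbb v i hv hi) ?_
    refine lt_trans (kumc_lt (hW v hv).2 _ _ ?_) (ht v hv)
    rw [Valuation.map_sub_swap]
    exact hb i v hv)
  have hinj : Function.Injective (algebraMap E Ω) := (algebraMap E Ω).injective
  have h8 : ∏ k ∈ Finset.range p, ∑ i ∈ Finset.range p, a' v i * z k ^ i =
      algebraMap K E (d : K) := by
    apply hinj
    rw [← IsScalarTower.algebraMap_apply K E Ω, ← (hPa v hv).2.2.2, map_prod]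
    refine Finset.prod_congr rfl fun k _ => ?_
    rw [map_sum]
    refine Finset.sum_congr rfl fun i hi => ?_
    rw [map_mul, map_pow]
    change ((a' v i : E) : Ω) * ((z k : E) : Ω) ^ i = _
    rw [hac v hv i (Finset.mem_range.1 hi), hzc]
  have h9 : ∏ k ∈ Finset.range p, ∑ i ∈ Finset.range p, algebraMap K E (b i) * z k ^ i =
      algebraMap K E n := by
    apply hinj
    rw [← IsScalarTower.algebraMap_apply K E Ω, hn, map_prod]
    refine Finset.prod_congr rfl fun k _ => ?_
    rw [map_sum]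
    refine Finset.sum_congr rfl fun i hi => ?_
    rw [map_mul, map_pow, ← IsScalarTower.algebraMap_apply K E Ω]
    change _ * ((z k : E) : Ω) ^ i = _
    rw [hzc]
  rw [h8, h9, ← map_sub] at h7
  exact nrb_le (hW v hv).2 _ _ h7

end H89.BRG
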