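import Pool.Agent.H89.BRG.NrA
import Pool.Agent.H89.BRG.NrB

/-!
# [H89 BRG NRM] changing `d` by a norm, 80-150 lines. File Pool/Agent/H89/BRG/Nrm.lean

`c` not a `p`-th power, the cup product `kk c ∪ kk d` is trivial on a decomposition group over each `v ∈ S`. Then there is `x ∈ K^*`, close to `1` at all `v ∈ S`, with the same cup product with `c`
and the same symbols.

Proof. If `S = ∅` take `x = d` (the difference is `0`: `tv_zero`). Otherwise `L`, `H` from `bca_exists` (`IsAlgClosure L Ω` by `bca_clo`), `γ = algebraMap L Ω H.γ`, `b` from `nrb`,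
`y = ∑_{i<p} b i * H.γ ^ i`. `y ≠ 0`: otherwise the norm form is `0` (the factor `k = 0` is the image of `y`), so `v.valuation (0 - d) < v.valuation (d * p ^ 2) ≤ v.valuation d`
(`v.valuation K (p : K) ≤ 1`), a contradiction. `n = Nm K L y`, `nra_norm`: `v.valuation (n - d) < v.valuation (d * p ^ 2)` for `v ∈ S`, so `v.valuation n = v.valuation d`. `x = d * n⁻¹`:
`x - 1 = (d - n) / n`. The difference of the cup products is `cu c n` (`kk_mul_arg`: `kk d = kk x + kk n`), use `nra_tv`; `B v c x = B v c d - B v c n` and `B_norm` (`v ∤ p`).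
-/

set_option autoImplicit false

open scoped NumberField Pointwise
open IsDedekindDomain

noncomputable section

namespace H89.BRG

open H63.MA H57.BRA

theorem brg_norm {K : Type} [Field K] [NumberField K] {Ω : Type} [Field Ω] [Algebra K Ω]
    [IsAlgClosure K Ω] {p : ℕ} (hp : p.Prime) (hp2 : MOne p K) {ζ : K} (hζ : IsPrimitiveRoot ζ p)
    {c : Kˣ} (hc : ¬ IsPow p c) (d : Kˣ) (S : Finset (Pl K))
    (hS : ∀ v ∈ S, ∃ P : Ideal (𝓞 Ω), P.IsPrime ∧ P.under (𝓞 K) = v.asIdeal ∧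
      Kl (fun σ τ : Gal(Ω/K) => cu p ζ c d σ τ) (Dc K P : Set Gal(Ω/K))) :
    ∃ x : Kˣ, Tv (fun σ τ : Gal(Ω/K) => cu p ζ c d σ τ - cu p ζ c x σ τ) ∧
      (∀ v : Pl K, ¬ Above p v → B p ζ v c x = B p ζ v c d) ∧
      ∀ v ∈ S, v.valuation K ((x : K) - 1) < v.valuation K ((p : K) ^ 2) := by
  classical
  rcases S.eq_empty_or_nonempty with rfl | ⟨v₀, hv₀⟩
  · refine ⟨d, ?_, fun v _ => rfl, fun v hv => absurd hv (Finset.notMem_empty v)⟩
    simp only [sub_self]
    exact tv_zero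
  obtain ⟨L, _, _, _, _, _, ⟨H⟩⟩ := bca_exists Ω hp hζ hc
  have hclo : IsAlgClosure L Ω := bca_clo K L Ω
  have hγ : (algebraMap L Ω (H.γ : L)) ^ p = algebraMap K Ω (c : K) := by
    rw [← map_pow, H.hγ, ← IsScalarTower.algebraMap_apply K L Ω]
  obtain ⟨b, hb⟩ := nrb hp hζ c d hγ S hS
  have hpv : ∀ v : Pl K, v.valuation K (p : K) ≤ 1 := by
    intro v
    have h3 := v.valuation_le_one (K := K) (p : 𝓞 K)
    have h4 : algebraMap (𝓞 K) K (p : 𝓞 K) = (p : K) := map_natCast (algebraMap (𝓞 K) K) p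
    rw [← h4]
    exact h3
  have hdp : ∀ v : Pl K, v.valuation K ((d : K) * (p : K) ^ 2) ≤ v.valuation K (d : K) := by
    intro v
    rw [map_mul, map_pow]
    exact mul_le_of_le_one_right' (pow_le_one₀ zero_le (hpv v))
  have hy0 : ∑ i ∈ Finset.range p, algebraMap K L (b i) * (H.γ : L) ^ i ≠ 0 := by
    intro h0
    have h1 := hb v₀ hv₀ 0 (by
      rw [map_zero]
      symm
      refine Finset.prod_eq_zero (Finset.mem_range.2 hp.pos) ?_
      have h2 := congrArg (algebraMap L Ω) h0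
      rw [map_zero, map_sum] at h2
      rw [← h2]
      refine Finset.sum_congr rfl fun i _ => ?_
      rw [pow_zero, one_mul, map_mul, map_pow, ← IsScalarTower.algebraMap_apply K L Ω])
    rw [zero_sub, Valuation.map_neg] at h1
    exact absurd (lt_of_lt_of_le h1 (hdp v₀)) (lt_irrefl _)
  obtain ⟨y, hy⟩ : ∃ y : Lˣ, (y : L) =
      ∑ i ∈ Finset.range p, algebraMap K L (b i) * (H.γ : L) ^ i := ⟨Units.mk0 _ hy0, rfl⟩
  obtain ⟨n, hn⟩ : ∃ n : Kˣ, n = Nm K L y := ⟨_, rfl⟩
  have hnv : ∀ v ∈ S, v.valuation K ((n : K) - (d : K)) < v.valuation K ((d : K) * (p : K) ^ 2) := by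
    intro v hv
    refine hb v hv _ ?_
    rw [hn]
    exact nra_norm hp hζ H b y hy
  have hTn : Tv (fun σ τ : Gal(Ω/K) => cu p ζ c n σ τ) := by
    rw [hn]
    exact nra_tv hp hζ H b y hy
  have hxn : d * n⁻¹ * n = d := inv_mul_cancel_right d n
  refine ⟨d * n⁻¹, ?_, ?_, ?_⟩
  · have h1 : (fun σ τ : Gal(Ω/K) => cu p ζ c d σ τ - cu p ζ c (d * n⁻¹) σ τ) =
        fun σ τ => cu p ζ c n σ τ := by
      funext σ τ
      have h2 := kk_mul_arg hp hζ (d * n⁻¹) n τ
      rw [hxn] at h2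
      unfold cu
      rw [h2]
      ring
    rw [h1]
    exact hTn
  · intro v hv
    have h1 := B_mul_right hp hζ hv c (d * n⁻¹) n
    have h2 := B_norm hp hp2 hζ H hv y
    rw [← hn] at h2
    rw [hxn, h2, add_zero] at h1
    exact h1.symm
  · intro v hv
    have h1 := hnv v hv
    have hd0 : v.valuation K (d : K) ≠ 0 := (Valuation.ne_zero_iff _).2 d.ne_zero
    have hn0 : (n : K) ≠ 0 := n.ne_zero
    have h2 : v.valuation K (n : K) = v.valuation K (d : K) := by
      have h3 : (n : K) = d + ((n : K) - d) := by ring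
      rw [h3]
      exact Valuation.map_add_eq_of_lt_left _ (lt_of_lt_of_le h1 (hdp v))
    have h4 : (((d * n⁻¹ : Kˣ) : K) - 1) = -((n : K) - d) * (n : K)⁻¹ := by
      rw [Units.val_mul, Units.val_inv_eq_inv_val]
      field_simp
      ring
    rw [h4, map_mul, Valuation.map_neg, map_inv₀, h2]
    rw [map_mul] at h1
    have h5 : v.valuation K ((n : K) - d) * (v.valuation K (d : K))⁻¹ <
        v.valuation K (d : K) * v.valuation K ((p : K) ^ 2) * (v.valuation K (d : K))⁻¹ :=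
      mul_lt_mul_of_pos_right h1 (zero_lt_iff.2 (inv_ne_zero hd0))
    refine lt_of_lt_of_eq h5 ?_
    rw [mul_comm (v.valuation K (d : K)), mul_assoc, mul_inv_cancel₀ hd0, mul_one]

end H89.BRG
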