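import Pool.Agent.H57.BRA.Bca
import Pool.Agent.H63.MA.GSym
import Pool.Agent.H63.MA.KumD

/-!
# [H89 BRG NRA] norms from `K(c^{1/p})` and the norm form, 60-120 lines. File Pool/Agent/H89/BRG/NrA.lean

`L` a Kummer extension with root `H.γ` inside `Ω`, `b i ∈ K`, `y = ∑_{i<p} b i * H.γ ^ i ∈ L^*`.
* `nra_norm`: the image of `Nm K L y` in `Ω` is `∏_{k<p} ∑_{i<p} b i * (ζ ^ k γ) ^ i`: `kum_norm` and `kum_pow` (`H.σ ^ k` maps `γ` to `ζ ^ k γ` and fixes `K`), then apply `algebraMap L Ω`.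
* `nra_tv`: `sym1` with `z = algebraMap L Ω y`, `τ` with `kk c τ = 1` (there is one because `c` is not a `p`-th power: `kum_not_pow`, `kk_eq_zero_iff` and a power), `u` with `kk c u = 0` fixes `γ`
  (`kk_root`) so it fixes `z` (or use `bca_range`), `τ ^ i γ = ζ ^ i γ`, so the product is the norm (`nra_norm`).
-/

set_option autoImplicit false

open scoped NumberField
open IsDedekindDomain

noncomputable section

namespace H89.BRG

open H63.MA H57.BRA

variable {K : Type} [Field K] [NumberField K] {L : Type} [Field L] [NumberField L] [Algebra K L]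
  {Ω : Type} [Field Ω] [Algebra K Ω] [Algebra L Ω] [IsScalarTower K L Ω] [IsAlgClosure K Ω]
  [IsAlgClosure L Ω] {p : ℕ} {ζ : K}

theorem nra_norm (hp : p.Prime) (hζ : IsPrimitiveRoot ζ p) {c : Kˣ} (H : Kum p K ζ c L)
    (b : ℕ → K) (y : Lˣ)
    (hy : (y : L) = ∑ i ∈ Finset.range p, algebraMap K L (b i) * (H.γ : L) ^ i) :
    algebraMap K Ω ((Nm K L y : Kˣ) : K) = ∏ k ∈ Finset.range p, ∑ i ∈ Finset.range p,
      algebraMap K Ω (b i) * (algebraMap K Ω ζ ^ k * algebraMap L Ω (H.γ : L)) ^ i := by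
  have h1 := congrArg (fun u : Lˣ => algebraMap L Ω (u : L)) (kum_norm hp hζ H y)
  have h2 : ((inc K L (Nm K L y) : Lˣ) : L) = algebraMap K L ((Nm K L y : Kˣ) : K) := rfl
  simp only [h2, Units.coe_prod, map_prod] at h1
  rw [← IsScalarTower.algebraMap_apply K L Ω] at h1
  rw [h1]
  refine Finset.prod_congr rfl fun k _ => ?_
  have h3 : ((au (H.σ ^ k) y : Lˣ) : L) = (H.σ ^ k) (y : L) := rfl
  have h4 : (H.σ ^ k) (y : L) = ∑ i ∈ Finset.range p, algebraMap K L (b i) *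
      (algebraMap K L (ζ ^ k) * (H.γ : L)) ^ i := by
    rw [hy, map_sum]
    refine Finset.sum_congr rfl fun i _ => ?_
    rw [map_mul, map_pow, kum_pow hp hζ H, AlgEquiv.commutes]
  rw [h3, h4, map_sum]
  refine Finset.sum_congr rfl fun i _ => ?_
  rw [map_mul, map_pow, map_mul, map_pow, map_pow, ← IsScalarTower.algebraMap_apply K L Ω,
    ← IsScalarTower.algebraMap_apply K L Ω]

theorem nra_tv (hp : p.Prime) (hζ : IsPrimitiveRoot ζ p) {c : Kˣ} (H : Kum p K ζ c L)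
    (b : ℕ → K) (y : Lˣ)
    (hy : (y : L) = ∑ i ∈ Finset.range p, algebraMap K L (b i) * (H.γ : L) ^ i) :
    Tv (fun σ τ : Gal(Ω/K) => cu p ζ c (Nm K L y) σ τ) := by
  have hpf : Fact p.Prime := ⟨hp⟩
  have hp0 : NeZero p := ⟨hp.ne_zero⟩
  have hγ : (algebraMap L Ω (H.γ : L)) ^ p = algebraMap K Ω (c : K) := by
    rw [← map_pow, H.hγ, ← IsScalarTower.algebraMap_apply K L Ω]
  obtain ⟨τ, hτ⟩ : ∃ τ : Gal(Ω/K), kk p ζ c τ = 1 := by
    have h1 : ¬ ∀ σ : Gal(Ω/K), kk p ζ c σ = 0 := fun h =>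
      kum_not_pow hp hζ H ((kk_eq_zero_iff hp hζ c).1 h)
    push Not at h1
    obtain ⟨σ, hσ⟩ := h1
    refine ⟨σ ^ (kk p ζ c σ)⁻¹.val, ?_⟩
    have h2 : kk p ζ c (σ ^ (kk p ζ c σ)⁻¹.val) = ((kk p ζ c σ)⁻¹.val : ZMod p) * kk p ζ c σ := by
      unfold kk
      rw [map_pow, toAdd_pow, nsmul_eq_mul]
    rw [h2, ZMod.natCast_zmod_val, inv_mul_cancel₀ hσ]
  have hz : algebraMap L Ω (y : L) = ∑ i ∈ Finset.range p,
      algebraMap K Ω (b i) * (algebraMap L Ω (H.γ : L)) ^ i := by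
    rw [hy, map_sum]
    refine Finset.sum_congr rfl fun i _ => ?_
    rw [map_mul, map_pow, ← IsScalarTower.algebraMap_apply K L Ω]
  have hact : ∀ (σ : Gal(Ω/K)) (x : Ω), σ (algebraMap L Ω (H.γ : L)) = x →
      σ (algebraMap L Ω (y : L)) = ∑ i ∈ Finset.range p, algebraMap K Ω (b i) * x ^ i := by
    intro σ x hx
    rw [hz, map_sum]
    refine Finset.sum_congr rfl fun i _ => ?_
    rw [map_mul, map_pow, AlgEquiv.commutes, hx]
  refine sym1 hp hζ c (Nm K L y) τ (algebraMap L Ω (y : L)) hτ ?_ ?_ ?_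
  · exact (map_ne_zero _).2 y.ne_zero
  · intro u hu
    rw [hact u (algebraMap L Ω (H.γ : L)) (by
      rw [kk_root hp hζ c _ hγ, hu, ZMod.val_zero, pow_zero, one_mul]), hz]
  · rw [nra_norm hp hζ H b y hy]
    refine Finset.prod_congr rfl fun k hk => ?_
    refine hact (τ ^ k) _ ?_
    clear hk
    induction k with
    | zero => rw [pow_zero, pow_zero, AlgEquiv.one_apply, one_mul]
    | succ k ih =>
      have h3 : τ (algebraMap L Ω (H.γ : L)) = algebraMap K Ω ζ * algebraMap L Ω (H.γ : L) := by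
        rw [kk_root hp hζ c _ hγ, hτ]
        have h2 : (1 : ZMod p).val = 1 := by
          have : Fact (1 < p) := ⟨hp.one_lt⟩
          exact ZMod.val_one p
        rw [h2, pow_one]
      rw [pow_succ, AlgEquiv.mul_apply, h3, map_mul, AlgEquiv.commutes, ih, pow_succ]
      ring

end H89.BRG
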