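import Pool.Agent.H57.BRA.Ltr
import Pool.Agent.H57.BRA.Bcp

/-!
# [H89 BRG DEC] decomposition groups, base change and conjugation, 80-150 lines. File Pool/Agent/H89/BRG/Dec.lean

`Dc K P` is the decomposition group in `Gal(Ω/K)` of the prime `P` of `𝓞 Ω`.
* `dc_rs`: `rsK` maps `Dc L P` into `Dc K P` (the actions agree, `bcp_smul`; `MulAction.mem_stabilizer_iff`, `Ideal.ext` with
  `Ideal.mem_pointwise_smul_iff_inv_smul_mem`, `map_inv`).
* `dc_kl_rs`: compose the function with `rsK` (`bca_lev`).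
* `kl_conj`: `ltr_conj` gives `g` with `x ∈ P' ↔ g⁻¹ • x ∈ P`, so `σ ∈ Dc K P'` implies `g⁻¹ σ g ∈ Dc K P`. Let `l` be the function for `P`. Put
  `l' σ = l (g⁻¹ σ g) - X g (g⁻¹ σ g) + X σ g` up to the sign: it is determined by `(g, 0) (γ, l γ) = (g γ g⁻¹, l' (g γ g⁻¹)) (g, 0)` in the group of the pairs `(σ, z)` with the product
  `(σ, z) (τ, w) = (σ τ, z + w + X σ τ)`; the sign of `X` in `Kl` is `l (σ τ) = l σ + l τ + X σ τ`. The identity follows by `linear_combination` from `hX.co` for the triples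
  `(g, γ, δ)`, `(γ', g, δ)`, `(γ', δ', g)` with `γ' = g γ g⁻¹`, `δ' = g δ g⁻¹`. Level: take a finite normal extension `E'` of `K` containing the levels of `l` and `X`
  (normal closure, as in `bqa`/`gtriv_field`), so `g⁻¹ u g` fixes it if `u` does.
-/

set_option autoImplicit false

open scoped NumberField Pointwise
open IsDedekindDomain

noncomputable section

namespace H89.BRG

open H63.MA H38.BB H38.BG H57.PC H57.BRA

/-- the decomposition group of `P` -/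
def Dc (K : Type) [Field K] {Ω : Type} [Field Ω] [Algebra K Ω] (P : Ideal (𝓞 Ω)) :
    Subgroup Gal(Ω/K) := MulAction.stabilizer Gal(Ω/K) P

theorem dc_rs {K : Type} [Field K] [NumberField K] {L : Type} [Field L] [NumberField L]
    [Algebra K L] {Ω : Type} [Field Ω] [Algebra K Ω] [Algebra L Ω] [IsScalarTower K L Ω]
    {P : Ideal (𝓞 Ω)} {σ : Gal(Ω/L)} (h : σ ∈ Dc L P) : rsK K L Ω σ ∈ Dc K P := by
  have h1 : σ • P = P := h
  change rsK K L Ω σ • P = P
  ext x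
  rw [Ideal.mem_pointwise_smul_iff_inv_smul_mem, ← map_inv, bcp_smul,
    ← Ideal.mem_pointwise_smul_iff_inv_smul_mem, h1]

theorem dc_kl_rs {K : Type} [Field K] [NumberField K] {L : Type} [Field L] [NumberField L]
    [Algebra K L] {Ω : Type} [Field Ω] [Algebra K Ω] [Algebra L Ω] [IsScalarTower K L Ω]
    [IsAlgClosure K Ω] [IsAlgClosure L Ω] {p : ℕ} {R : Type} [Group R] {e : R → R → ZMod p}
    {ρ : Gal(Ω/K) →* R} {P : Ideal (𝓞 Ω)} (h : Kl (pb e ρ) (Dc K P : Set Gal(Ω/K))) :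
    Kl (pb e (ρ.comp (rsK K L Ω))) (Dc L P : Set Gal(Ω/L)) := by
  obtain ⟨l, hl, h1⟩ := h
  refine ⟨fun σ => l (rsK K L Ω σ), bca_lev hl, fun σ hσ τ hτ => ?_⟩
  have h2 := h1 _ (dc_rs hσ) _ (dc_rs hτ)
  rw [← map_mul] at h2
  exact h2

theorem kl_conj {K : Type} [Field K] [NumberField K] {Ω : Type} [Field Ω] [Algebra K Ω]
    [IsAlgClosure K Ω] {p : ℕ} {X : Gal(Ω/K) → Gal(Ω/K) → ZMod p} (hX : C2 X) {v : Pl K}
    {P P' : Ideal (𝓞 Ω)} (hP : P.IsPrime) (hP' : P'.IsPrime) (h : P.under (𝓞 K) = v.asIdeal)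
    (h' : P'.under (𝓞 K) = v.asIdeal) (hk : Kl X (Dc K P : Set Gal(Ω/K))) :
    Kl X (Dc K P' : Set Gal(Ω/K)) := by
  obtain ⟨g, hg⟩ := ltr_conj hP hP' h h'
  have hgP : P' = g • P := by
    ext x
    rw [hg, Ideal.mem_pointwise_smul_iff_inv_smul_mem]
  have hdc : ∀ σ ∈ Dc K P', g⁻¹ * σ * g ∈ Dc K P := by
    intro σ hσ
    have h1 : σ • P' = P' := hσ
    change (g⁻¹ * σ * g) • P = P
    rw [mul_smul, mul_smul, ← hgP, h1, hgP, inv_smul_smul]
  obtain ⟨l, ⟨E, hE, hEl⟩, hl⟩ := hk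
  obtain ⟨E2, hE2, hX2⟩ := hX.lev
  have hgal : IsGalois K Ω := IsAlgClosure.isGalois K Ω
  have hsup : FiniteDimensional K ↥(E ⊔ E2) := IntermediateField.finiteDimensional_sup _ _
  obtain ⟨N, hN1, hN2, hN3⟩ : ∃ N : IntermediateField K Ω, FiniteDimensional K N ∧
      Normal K N ∧ E ⊔ E2 ≤ N :=
    ⟨IntermediateField.normalClosure K ↥(E ⊔ E2) Ω, inferInstance, inferInstance,
      IntermediateField.le_normalClosure _⟩
  have hnor : ∀ u ∈ N.fixingSubgroup, g⁻¹ * u * g ∈ N.fixingSubgroup := by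
    intro u hu
    have h1 : N.fixingSubgroup.Normal := by
      rw [← IntermediateField.restrictNormalHom_ker]
      infer_instance
    have h2 := h1.conj_mem u hu g⁻¹
    rwa [inv_inv] at h2
  have hNE : ∀ u ∈ N.fixingSubgroup, u ∈ E.fixingSubgroup := fun u hu =>
    IntermediateField.fixingSubgroup_antitone (le_sup_left.trans hN3) hu
  have hNE2 : ∀ u ∈ N.fixingSubgroup, u ∈ E2.fixingSubgroup := fun u hu =>
    IntermediateField.fixingSubgroup_antitone (le_sup_right.trans hN3) hu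
  refine ⟨fun σ => l (g⁻¹ * σ * g) + X g (g⁻¹ * σ * g) - X σ g, ⟨N, hN1, ?_⟩, ?_⟩
  · intro σ u hu
    have h1 : g⁻¹ * (σ * u) * g = (g⁻¹ * σ * g) * (g⁻¹ * u * g) := by group
    have h2 := hnor u hu
    have h3 : X (σ * u) g = X σ g := (hX2 σ g u (hNE2 u hu)).1
    simp only
    rw [h1, hEl _ _ (hNE _ h2), (hX2 g (g⁻¹ * σ * g) _ (hNE2 _ h2)).2, h3]
  · intro σ hσ τ hτ
    have h1 := hl _ (hdc σ hσ) _ (hdc τ hτ)
    have h2 : g⁻¹ * σ * g * (g⁻¹ * τ * g) = g⁻¹ * (σ * τ) * g := by group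
    have c1 := hX.co g (g⁻¹ * σ * g) (g⁻¹ * τ * g)
    have c2 := hX.co σ g (g⁻¹ * τ * g)
    have c3 := hX.co σ τ g
    have e1 : g * (g⁻¹ * σ * g) = σ * g := by group
    have e2 : g * (g⁻¹ * τ * g) = τ * g := by group
    rw [e1, h2] at c1
    rw [e2] at c2
    rw [h2] at h1
    simp only
    linear_combination h1 + c1 - c2 + c3

end H89.BRG
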