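import Pool.Agent.H57.BRA.Has
import Pool.Agent.H89.BRG.Nrm

/-!
# [H89 BRG HAS] Hasse principle with decomposition groups, 150-250 lines. File Pool/Agent/H89/BRG/HasG.lean

As `has` (Pool/Agent/H57/BRA/Has.lean; copy its proof), but the classes are killed by an arbitrary Kummer tower, and at the primes of the finite set `S` (which contains the primes above `p`)
`pb e ρ` is assumed to be a coboundary on the decomposition groups.

Induction on `n` over all `K, Ω, ρ, c, S`.
* `n = 0` and the case that `c (last)` is a `p`-th power: as in `has`.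
* otherwise `L` from `bca_exists`, `S' =` the primes of `L` over primes in `S` (`over_finite`, a finite union). Above `p`: `above_over`. For `w ∈ S'` over `v ∈ S` and `P` over `w`:
  `dc_kl_rs`, `bcp_under`. For `w ∉ S'`: `v` under `w` (`exists_below`) is not in `S`: `bcp_lt`. So `pb e ρ'` is trivial, `bq` gives `d` with `Tv (pb e ρ + cu (c last) d)`.
  For `v ∈ S` there is a prime `P` over `v` (`H63.MA.exists_over` is for number fields; for `𝓞 Ω`: `Ideal.exists_ideal_over_prime_of_isIntegral` or the prime of `exists_LD`; lying over), and `Kl (cu (c last) d) (Dc K P)`: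
  difference of `Tv` (restricted) and the hypothesis. `brg_norm` gives `x`. `Prim p x`: for `v` above `p` use `v ∈ S` and `y = 1` in `LocP`. For `v ∉ S`: `B v c d = 0` by `loc_one` and `LT`
  as in `has`, so `B v c x = 0`; for `v ∈ S`, `v ∤ p`: `One1 v x` (`v.valuation K ((p : K) ^ 2) = 1`: `above_iff`), so `B v c x = 0` (`B_of_one1`). So `B v x c = 0` for all `v ∤ p` (`B_symm`),
  `glg_triv Ω hp hp2 hζ x c` and `tv_swap` give `Tv (cu c x)`, so `Tv (cu c d)`, so `Tv (pb e ρ)`.
-/

set_option autoImplicit false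

open scoped NumberField Pointwise
open IsDedekindDomain

noncomputable section

namespace H89.BRG

open H63.MA H38.BB H38.BG H57.PC H57.BRA

private theorem hg_tvkl {K : Type} [Field K] {Ω : Type} [Field Ω] [Algebra K Ω] {p : ℕ}
    {X Y : Gal(Ω/K) → Gal(Ω/K) → ZMod p} (h : Tv (fun σ τ => X σ τ + Y σ τ))
    {V : Set Gal(Ω/K)} (hX : Kl X V) : Kl Y V := by
  obtain ⟨l, ⟨E, hE, hEl⟩, hl⟩ := h
  obtain ⟨m, ⟨E', hE', hEm⟩, hm⟩ := hX
  refine ⟨fun σ => l σ - m σ, ⟨E ⊔ E', IntermediateField.finiteDimensional_sup _ _, ?_⟩, ?_⟩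
  · intro σ u hu
    have h1 : u ∈ E.fixingSubgroup := IntermediateField.fixingSubgroup_antitone le_sup_left hu
    have h2 : u ∈ E'.fixingSubgroup := IntermediateField.fixingSubgroup_antitone le_sup_right hu
    simp only [hEl σ u h1, hEm σ u h2]
  · intro σ hσ τ hτ
    have h1 := hl σ τ
    have h2 := hm σ hσ τ hτ
    simp only [h1, h2]
    ring

theorem hasg {p : ℕ} (hp : p.Prime) {R : Type} [Group R] [Finite R] {e : R → R → ZMod p}
    (he : Coc p e) (n : ℕ) :
    ∀ (K : Type) [Field K] [NumberField K] (ζ : K) (_ : IsPrimitiveRoot ζ p) (_ : MOne p K)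
      (_ : Z2 p K) (Ω : Type) [Field Ω] [Algebra K Ω] [IsAlgClosure K Ω] (ρ : Gal(Ω/K) →* R)
      (_ : H38.ML.FT ρ) (c : Fin n → Kˣ) (S : Finset (Pl K)) (_ : ∀ v, Above p v → v ∈ S)
      (_ : ∀ v ∈ S, ∀ P : Ideal (𝓞 Ω), P.IsPrime → P.under (𝓞 K) = v.asIdeal →
        Kl (pb e ρ) (Dc K P : Set Gal(Ω/K)))
      (_ : ∀ v, v ∉ S → ∀ P : Ideal (𝓞 Ω), P.IsPrime → P.under (𝓞 K) = v.asIdeal → LT e ρ P)
      (_ : Kl (pb e ρ) (Zk p ζ c)), Tv (pb e ρ) := by
  induction n with
  | zero =>
    intro K _ _ ζ _ _ _ Ω _ _ _ ρ _ c S _ _ _ hk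
    obtain ⟨l, hl, h⟩ := hk
    exact ⟨l, hl, fun σ τ => h σ (fun i => i.elim0) τ (fun i => i.elim0)⟩
  | succ n ih =>
    intro K _ _ ζ hζ hp2 hz Ω _ _ _ ρ hρ c S hSa hSd hloc hk
    by_cases hpow : IsPow p (c (Fin.last n))
    · have h1 : ∀ σ : Gal(Ω/K), kk p ζ (c (Fin.last n)) σ = 0 := (kk_eq_zero_iff hp hζ _).2 hpow
      refine ih K ζ hζ hp2 hz Ω ρ hρ (fun i => c i.castSucc) S hSa hSd hloc ?_
      obtain ⟨l, hl, h⟩ := hk
      have hm : ∀ σ : Gal(Ω/K), σ ∈ Zk p ζ (fun i : Fin n => c i.castSucc) → σ ∈ Zk p ζ c := by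
        intro σ hσ i
        refine Fin.lastCases ?_ ?_ i
        · exact h1 σ
        · intro j
          exact hσ j
      exact ⟨l, hl, fun σ hσ τ hτ => h σ (hm σ hσ) τ (hm τ hτ)⟩
    · obtain ⟨L, _, _, _, _, _, ⟨H⟩⟩ := bca_exists Ω hp hζ hpow
      have : IsAlgClosure L Ω := bca_clo K L Ω
      have hT : Tv (pb e (ρ.comp (rsK K L Ω))) := by
        have hfin : {w : Pl L | ∃ v ∈ S, Over w v}.Finite := by
          have h1 : {w : Pl L | ∃ v ∈ S, Over w v} = ⋃ v ∈ S, {w : Pl L | Over w v} := by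
            ext w
            simp only [Set.mem_ofPred_eq, Set.mem_iUnion, exists_prop]
          rw [h1]
          exact Set.Finite.biUnion S.finite_toSet fun v _ => over_finite v
        have hmem : ∀ w : Pl L, w ∈ hfin.toFinset ↔ ∃ v ∈ S, Over w v := by
          intro w
          rw [Set.Finite.mem_toFinset]
          rfl
        refine ih L (algebraMap K L ζ) (GBase_zeta hζ) (mone_map hp2 L) (z2_map hz L) Ω
          (ρ.comp (rsK K L Ω)) (bca_ft hρ) (fun i => inc K L (c i.castSucc)) hfin.toFinset ?_ ?_ ?_ ?_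
        · intro w hw
          obtain ⟨v, hv⟩ := exists_below (K := K) w
          exact (hmem w).2 ⟨v, hSa v ((above_over hv p).1 hw), hv⟩
        · intro w hw P hP hPw
          obtain ⟨v, hvS, hv⟩ := (hmem w).1 hw
          exact dc_kl_rs (hSd v hvS P hP (bcp_under hv hPw))
        · intro w hw P hP hPw
          obtain ⟨v, hv⟩ := exists_below (K := K) w
          have hvS : v ∉ S := fun h => hw ((hmem w).2 ⟨v, h, hv⟩)
          exact bcp_lt hv hPw (hloc v hvS P hP (bcp_under hv hPw))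
        · obtain ⟨l, hl, h⟩ := hk
          have hm : ∀ σ : Gal(Ω/L), σ ∈ Zk p (algebraMap K L ζ)
              (fun i : Fin n => inc K L (c i.castSucc)) → rsK K L Ω σ ∈ Zk p ζ c := by
            intro σ hσ i
            refine Fin.lastCases ?_ ?_ i
            · exact (bca_range hp hζ H _).2 ⟨σ, rfl⟩
            · intro j
              rw [← bca_kk hp hζ]
              exact hσ j
          refine ⟨fun σ => l (rsK K L Ω σ), bca_lev hl, fun σ hσ τ hτ => ?_⟩
          have h4 := h _ (hm σ hσ) _ (hm τ hτ)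
          rw [← map_mul] at h4
          exact h4
      have hK : Kl (pb e ρ) {σ : Gal(Ω/K) | kk p ζ (c (Fin.last n)) σ = 0} := by
        obtain ⟨g, hg, hg2⟩ := hT
        obtain ⟨f, hf, hfg⟩ := bca_lev' (K := K) hg
        refine ⟨f, hf, fun σ hσ τ hτ => ?_⟩
        obtain ⟨σ', rfl⟩ := (bca_range hp hζ H σ).1 hσ
        obtain ⟨τ', rfl⟩ := (bca_range hp hζ H τ).1 hτ
        rw [← map_mul, hfg, hfg, hfg]
        exact hg2 σ' τ'
      obtain ⟨d, hd⟩ := bq hp hζ (c2_pb he hρ) hpow hK
      obtain ⟨x, hx1, hx2, hx3⟩ := brg_norm (Ω := Ω) hp hp2 hζ hpow d S (by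
        intro v hv
        obtain ⟨P, hP, hPv⟩ := gloc_over K Ω v.asIdeal v.isPrime
        exact ⟨P, hP, hPv, hg_tvkl hd (hSd v hv P hP hPv)⟩)
      have hB : ∀ v : Pl K, v ∉ S → B p ζ v (c (Fin.last n)) d = 0 := by
        intro v hvS
        have hv : ¬ Above p v := fun h => hvS (hSa v h)
        obtain ⟨π, hπ⟩ := H63.MA.exists_unif v
        obtain ⟨Lv⟩ := exists_LD Ω hp hζ hv hπ
        obtain ⟨F, _, hF⟩ := frob_univ hp hζ hz hv hπ Lv
        have hLT := hloc v hvS Lv.P Lv.prime Lv.under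
        have h1 := loc_one hp hp2 hζ he hρ (c (Fin.last n)) d hv hπ Lv hF hLT.1 hd
        have hFr : FrP Lv.P F := by
          refine ⟨1, fun x => ?_⟩
          rw [Lv.under, pow_one]
          exact hF.1 x
        have h2 := (hLT.2 F hFr Lv.t Lv.ht).2
        rw [h2, zero_add] at h1
        exact h1
      have hpr : Prim p x := by
        intro v hv
        refine ⟨1, ?_⟩
        rw [one_pow, inv_one, mul_one]
        exact hx3 v (hSa v hv)
      have hBx : ∀ v : Pl K, ¬ Above p v → B p ζ v x (c (Fin.last n)) = 0 := by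
        intro v hv
        rw [B_symm hp hζ hv, neg_eq_zero]
        by_cases hvS : v ∈ S
        · apply B_of_one1 hp hζ hv
          have h1 := hx3 v hvS
          have h2 : v.valuation K (p : K) = 1 := by
            refine le_antisymm ?_ ?_
            · have h3 := v.valuation_le_one (K := K) (p : 𝓞 K)
              have h4 : algebraMap (𝓞 K) K (p : 𝓞 K) = (p : K) := map_natCast (algebraMap (𝓞 K) K) p
              rw [← h4]
              exact h3
            · by_contra h3
              exact hv ((above_iff p v).2 (not_le.1 h3))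
          rw [map_pow, h2, one_pow] at h1
          exact h1
        · rw [hx2 v hv, hB v hvS]
      have hcu := glg_triv Ω hp hp2 hζ x (c (Fin.last n)) hpr hBx
      have hsw := tv_swap (Ω := Ω) hp hζ x (c (Fin.last n))
      have h3 := tv_add _ _ hd (tv_smul (-1) _ (tv_add _ _ hx1 (tv_add _ _ hsw
        (tv_smul (-1) _ hcu))))
      have e1 : (fun σ τ : Gal(Ω/K) => pb e ρ σ τ + cu p ζ (c (Fin.last n)) d σ τ +
          (-1) * (cu p ζ (c (Fin.last n)) d σ τ - cu p ζ (c (Fin.last n)) x σ τ +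
          (cu p ζ x (c (Fin.last n)) σ τ + cu p ζ (c (Fin.last n)) x σ τ +
          (-1) * cu p ζ x (c (Fin.last n)) σ τ))) = pb e ρ := by
        funext σ τ
        ring
      rw [e1] at h3
      exact h3

end H89.BRG
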