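import Pool.Agent.H57.BRA.BR
import Pool.Agent.H89.BRG.HasG

/-!
# [H89 BRG BRG] Hasse principle and product formula for classes trivial at S0, 150-250 lines. File Pool/Agent/H89/BRG/BRG.lean

As `br1`, `br2` (Pool/Agent/H57/BRA/BR.lean; copy the proofs, `br_loc` is public), but the Kummer tower `c` is arbitrary and `pb e ρ` is assumed to be trivial on a decomposition group at every `v ∈ S0`
(the primes above `p` included).
* `brg_dc`: for all primes `P'` over `v ∈ S0`: `kl_conj` (`c2_pb`).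
* `brg1`: `hasg` with `S = D.S0`, `D.above`; outside `S0` as in `br1`.
* `brg2`: as `br2`: `c2` from `aux2` for `S0` without the primes above `p`, and `T`; `M = K(c2^(1/p))`; `hasg` over `M` with `S' =` the primes over `S0` (`over_finite`, `dc_kl_rs`, `bcp_under`),
  `c' i = inc (c i)`; the local condition outside `S0` as in `br2`. The rest (`bq`, `loc_one`, `exists_rec_one`) as in `br2`.
-/

set_option autoImplicit false

open scoped NumberField Pointwise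
open IsDedekindDomain

noncomputable section

namespace H89.BRG

open H63.MA H38.BB H38.BG H57.PC H57.BRA

variable {K : Type} [Field K] [NumberField K] {Ω : Type} [Field Ω] [Algebra K Ω] [IsAlgClosure K Ω]
  {p : ℕ} {ζ : K}

theorem brg_dc {S0 : Finset (Pl K)} {R : Type} [Group R] {e : R → R → ZMod p} (he : Coc p e)
    {ρ : Gal(Ω/K) →* R} (hρ : H38.ML.FT ρ)
    (hS : ∀ v ∈ S0, ∃ P : Ideal (𝓞 Ω), P.IsPrime ∧ P.under (𝓞 K) = v.asIdeal ∧
      Kl (pb e ρ) (Dc K P : Set Gal(Ω/K))) :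
    ∀ v ∈ S0, ∀ P : Ideal (𝓞 Ω), P.IsPrime → P.under (𝓞 K) = v.asIdeal →
      Kl (pb e ρ) (Dc K P : Set Gal(Ω/K)) := by
  intro v hv P' hP' h'
  obtain ⟨P, hP, h, hk⟩ := hS v hv
  exact kl_conj (c2_pb he hρ) hP hP' h h' hk

theorem brg1 (hp : p.Prime) (hp2 : MOne p K) (hζ : IsPrimitiveRoot ζ p) (hz : Z2 p K)
    {D : RD0 K p ζ} {L : LDs D Ω} (Fr : FR L) {R : Type} [Group R] [Finite R]
    {e : R → R → ZMod p} (he : Coc p e) {ρ : Gal(Ω/K) →* R} (hρ : H38.ML.FT ρ) {n : ℕ}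
    (c : Fin n → Kˣ) (hk : Kl (pb e ρ) (Zk p ζ c))
    (hS : ∀ v ∈ D.S0, ∃ P : Ideal (𝓞 Ω), P.IsPrime ∧ P.under (𝓞 K) = v.asIdeal ∧
      Kl (pb e ρ) (Dc K P : Set Gal(Ω/K)))
    (htm : ∀ v, v ∉ D.S0 → ∀ τ ∈ inr L v, ρ τ ^ p = 1)
    (hiv : ∀ v, v ∉ D.S0 → iv e (ρ (Fr.F v)) (ρ (L.t v)) = 0) : Tv (pb e ρ) := by
  refine hasg hp he n K ζ hζ hp2 hz Ω ρ hρ c D.S0 D.above (brg_dc he hρ hS) (fun v hvS => ?_) hk
  intro P' hP' h'
  obtain ⟨h1, h2⟩ := br_loc hp hζ hz Fr he hρ htm hvS P' hP' h'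
  refine ⟨h1, fun F' hF' τ' hτ' => ?_⟩
  obtain ⟨h3, k, j, h4, -⟩ := h2 F' hF' τ' hτ'
  refine ⟨h3, ?_⟩
  rw [h4, hiv v hvS, mul_zero]

theorem brg2 (hp : p.Prime) (hp2 : MOne p K) (hζ : IsPrimitiveRoot ζ p) (hz : Z2 p K)
    {D : RD0 K p ζ} {L : LDs D Ω} (Fr : FR L) {R : Type} [Group R] [Finite R]
    {e : R → R → ZMod p} (he : Coc p e) {ρ : Gal(Ω/K) →* R} (hρ : H38.ML.FT ρ) {n : ℕ}
    (c : Fin n → Kˣ) (hk : Kl (pb e ρ) (Zk p ζ c))
    (hS : ∀ v ∈ D.S0, ∃ P : Ideal (𝓞 Ω), P.IsPrime ∧ P.under (𝓞 K) = v.asIdeal ∧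
      Kl (pb e ρ) (Dc K P : Set Gal(Ω/K)))
    (htm : ∀ v, v ∉ D.S0 → ∀ τ ∈ inr L v, ρ τ ^ p = 1)
    (T : Finset (Pl K)) (hT : ∀ v ∈ T, v ∉ D.S0)
    (hur : ∀ v, v ∉ D.S0 → v ∉ T → ρ (L.t v) = 1)
    (hnp : ∀ v ∈ T, ¬ (nm v).Prime → iv e (ρ (Fr.F v)) (ρ (L.t v)) = 0) :
    ∑ v ∈ T, iv e (ρ (Fr.F v)) (ρ (L.t v)) = 0 := by
  classical
  rcases T.eq_empty_or_nonempty with rfl | ⟨v₀, hv₀⟩
  · exact Finset.sum_empty
  have hpf : Fact p.Prime := ⟨hp⟩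
  have hna : ∀ v, v ∉ D.S0 → ¬ Above p v := fun v hv h => hv (D.above v h)
  obtain ⟨c2, hc1, hc2, hc3⟩ := aux2 hp hζ (D.S0.filter fun v => ¬ Above p v) T
    (fun v hv => (Finset.mem_filter.1 hv).2) (fun v hv => hna v (hT v hv))
    (fun v hv h => hT v h (Finset.mem_filter.1 hv).1)
  have hcp : ¬ IsPow p c2 := by
    rintro ⟨x, hx⟩
    obtain ⟨h3, h4⟩ := hc3 v₀ hv₀
    have h5 : ord v₀ x = 0 := by
      rw [← hx, ord_pow] at h3
      rcases mul_eq_zero.1 h3 with h | h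
      · exact absurd (by exact_mod_cast h) hp.ne_zero
      · exact h
    rw [← hx, ← zpow_natCast, lg_zpow hp hζ (hna v₀ (hT v₀ hv₀)) h5] at h4
    push_cast at h4
    rw [ZMod.natCast_self, zero_mul] at h4
    exact zero_ne_one h4
  obtain ⟨M, _, _, _, _, _, ⟨H⟩⟩ := bca_exists Ω hp hζ hcp
  have hclo : IsAlgClosure M Ω := bca_clo K M Ω
  have hM : Tv (pb e (ρ.comp (rsK K M Ω))) := by
    have hfin : {w : Pl M | ∃ v ∈ D.S0, Over w v}.Finite := by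
      have h1 : {w : Pl M | ∃ v ∈ D.S0, Over w v} = ⋃ v ∈ D.S0, {w : Pl M | Over w v} := by
        ext w
        simp only [Set.mem_ofPred_eq, Set.mem_iUnion, exists_prop]
      rw [h1]
      exact Set.Finite.biUnion D.S0.finite_toSet fun v _ => over_finite v
    have hmem : ∀ w : Pl M, w ∈ hfin.toFinset ↔ ∃ v ∈ D.S0, Over w v := by
      intro w
      rw [Set.Finite.mem_toFinset]
      rfl
    refine hasg hp he n M (algebraMap K M ζ) (GBase_zeta hζ) (mone_map hp2 M) (z2_map hz M) Ω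
      (ρ.comp (rsK K M Ω)) (bca_ft hρ) (fun i => inc K M (c i)) hfin.toFinset
      (fun w hw => ?_) (fun w hw P hP hPw => ?_) (fun w hw => ?_) ?_
    · obtain ⟨v, hv⟩ := exists_below (K := K) w
      exact (hmem w).2 ⟨v, D.above v ((above_over hv p).1 hw), hv⟩
    · obtain ⟨v, hvS, hv⟩ := (hmem w).1 hw
      exact dc_kl_rs (brg_dc he hρ hS v hvS P hP (bcp_under hv hPw))
    · obtain ⟨v, hwv⟩ := exists_below (K := K) w
      have hvS : v ∉ D.S0 := fun h => hw ((hmem w).2 ⟨v, h, hwv⟩)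
      intro P hP hPw
      obtain ⟨h1, h2⟩ := br_loc hp hζ hz Fr he hρ htm hvS P hP (bcp_under hwv hPw)
      refine ⟨fun τ hτ => h1 _ (bcp_inertia hτ), fun F' hF' τ' hτ' => ?_⟩
      obtain ⟨h3, k, j, h4, h5⟩ := h2 (rsK K M Ω F') (bcp_frp hwv hPw hF') (rsK K M Ω τ')
        (bcp_inertia hτ')
      refine ⟨h3, ?_⟩
      change iv e (ρ (rsK K M Ω F')) (ρ (rsK K M Ω τ')) = 0
      rw [h4]
      by_cases hvT : v ∈ T
      · have h6 := h5 c2 (hc3 v hvT).1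
        rw [(hc3 v hvT).2, mul_one, (bca_range hp hζ H _).2 ⟨F', rfl⟩] at h6
        rw [← h6, zero_mul, zero_mul]
      · rw [hur v hvS hvT, iv_swap, iv_one_left he, neg_zero, mul_zero]
    · obtain ⟨l, hl1, hl2⟩ := hk
      refine ⟨fun σ => l (rsK K M Ω σ), bca_lev hl1, fun σ hσ τ hτ => ?_⟩
      have h1 : ∀ σ : Gal(Ω/M), σ ∈ Zk p (algebraMap K M ζ) (fun i => inc K M (c i)) →
          rsK K M Ω σ ∈ Zk p ζ c := by
        intro σ hσ i
        have h2 := hσ i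
        rwa [bca_kk hp hζ] at h2
      simp only [map_mul]
      exact hl2 _ (h1 σ hσ) _ (h1 τ hτ)
  obtain ⟨l', hl1, hl2⟩ := hM
  obtain ⟨l, hl3, hl4⟩ := bca_lev' (K := K) (L := M) hl1
  obtain ⟨d, hd⟩ := bq hp hζ (c2_pb he hρ) hcp ⟨l, hl3, fun σ hσ τ hτ => by
    obtain ⟨σ', rfl⟩ := (bca_range hp hζ H σ).1 hσ
    obtain ⟨τ', rfl⟩ := (bca_range hp hζ H τ).1 hτ
    rw [← map_mul, hl4, hl4, hl4]
    exact hl2 σ' τ'⟩
  have hB : ∀ v, v ∉ D.S0 → iv e (ρ (Fr.F v)) (ρ (L.t v)) = -B p ζ v c2 d := by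
    intro v hvS
    have htm' : Tm e ρ (L.ld v hvS).P := fun τ hτ => htm v hvS τ (by
      rw [inr, dif_pos hvS]
      exact hτ)
    have h5 : L.t v = (L.ld v hvS).t := by rw [LDs.t, dif_pos hvS]
    have h6 := loc_one hp hp2 hζ he hρ c2 d (hna v hvS) (D.pi_self v hvS) (L.ld v hvS)
      (isFr_of hp hζ hz Fr v hvS) htm' hd
    rw [h5]
    exact eq_neg_of_add_eq_zero_left h6
  obtain ⟨lam, hlam, hone⟩ := exists_rec_one K hp hp2 hζ
  have hsum := hlam.sum c2 hc1 d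
  have hout : ∀ v, v ∉ T → lam v * B p ζ v c2 d = 0 := by
    intro v hvT
    by_cases hva : Above p v
    · rw [hlam.above v hva, zero_mul]
    · by_cases hvS : v ∈ D.S0
      · rw [hc2 v (Finset.mem_filter.2 ⟨hvS, hva⟩) d, mul_zero]
      · have h1 := hB v hvS
        rw [hur v hvS hvT, iv_swap, iv_one_left he, neg_zero] at h1
        rw [neg_eq_zero.1 h1.symm, mul_zero]
  rw [finsum_eq_sum_of_support_subset (s := T) _ (by
    intro v hv
    by_contra hvT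
    exact hv (hout v hvT))] at hsum
  rw [← neg_zero, ← hsum, ← Finset.sum_neg_distrib]
  refine Finset.sum_congr rfl fun v hv => ?_
  by_cases hvp : (nm v).Prime
  · rw [hone v (hna v (hT v hv)) hvp, one_mul, hB v (hT v hv)]
  · have h1 := hnp v hv hvp
    have h2 := hB v (hT v hv)
    rw [h1] at h2
    rw [h1, neg_eq_zero.1 h2.symm, mul_zero, neg_zero]

end H89.BRG
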