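import Pool.Agent.H57.BRA.Def
import Pool.Agent.H63.MA.GKus

/-!
# [H89 BRG CNV] a trivial cup product gives a norm equation, 150-250 lines. File Pool/Agent/H89/BRG/Cnv.lean

`H` a subgroup of `Γ`, `γ ^ p = c`, and the cup product `kk c ∪ kk d` is the coboundary of `l` on `H`: `l (σ τ) = l σ + l τ + kk c σ * kk d τ` (`σ, τ ∈ H`), `l` of finite level.
Claim: there are `a i ∈ Ω` (`i < p`) fixed by `H` with `∏_{k<p} ∑_{i<p} a i * (ζ ^ k γ) ^ i = d`.

* `cnv_lag` (interpolation): for `y : ℕ → Ω` put `a i = p⁻¹ γ ^ (-i) ∑_{k<p} ζ ^ (-i k) y k`; then `∑_{i<p} a i * (ζ ^ k γ) ^ i = y k` for `k < p` (orthogonality of the powers of `ζ`;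
  `IsPrimitiveRoot.geom_sum_eq_zero`, `γ ≠ 0`, characteristic `0`).
* Case `kk c = 0` on `H`: `y 0 = d`, `y k = 1` for `0 < k < p`: `γ` is fixed by `H` (`kk_root`), so `a i` is fixed by `H`.
* Otherwise `kk c s = 1` for an `s ∈ H` (a power of an element). `U = H ∩ ker kk c`. On `U`, `l` is additive; `kum_sub` gives `B ≠ 0` with `u B = ζ ^ (l u).val * B` (`u ∈ U`). Let
  `D ^ p = d`. For `u ∈ U`: from `l (u s) = l u + l s` and `l (s (s⁻¹ u s)) = l s + l (s⁻¹ u s) + kk d u` (`kk d (s⁻¹ u s) = kk d u`): `l (s⁻¹ u s) = l u - kk d u`.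
  So `u (s B) = s ((s⁻¹ u s) B) = ζ ^ (l u - kk d u) * s B`, and `z = s B * D / B` is fixed by `U` (`u D = ζ ^ kk d u * D`).
  `∏_{k<p} s ^ k z = (s ^ p B / B) * ∏_{k<p} s ^ k D`; `s ^ k D = ζ ^ (k * kk d s) D`, so the second product is `ζ ^ (t * kk d s) * d`, `t = ∑_{k<p} k`;
  `s ^ p ∈ U` and `l (s ^ k) = k * l s + (∑_{i<k} i) * kk d s` by induction, so `s ^ p B = ζ ^ (t * kk d s) B`. The product is `ζ ^ (2 t kk d s) * d = d` (`2 t = p (p - 1)`).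
  Put `y k = s ^ k z`. `a i` is fixed by `s` (`s γ = ζ γ`, the sum over `k` is shifted, `s ^ p z = z`) and by `U` (`u s ^ k = s ^ k (s ^ (-k) u s ^ k)`, the last factor is in `U`); every
  `σ ∈ H` is `s ^ k u`.
Exponents of `ζ` in `ZMod p`: `gkus_pow_add`, `gkum_key` or work with `ζ ^ n` for natural numbers `n` and the congruence of the exponents.
-/

set_option autoImplicit false

open scoped NumberField
open IsDedekindDomain

noncomputable section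

namespace H89.BRG

open H63.MA H57.BRA

theorem cnv_lag {Ω : Type} [Field Ω] [CharZero Ω] {p : ℕ} (hp : p.Prime) {ξ γ : Ω}
    (hξ : IsPrimitiveRoot ξ p) (hγ : γ ≠ 0) (y : ℕ → Ω) (k : ℕ) (hk : k < p) :
    ∑ i ∈ Finset.range p, ((p : Ω)⁻¹ * (γ ^ i)⁻¹ * ∑ j ∈ Finset.range p, (ξ ^ (i * j))⁻¹ * y j) *
      (ξ ^ k * γ) ^ i = y k := by
  have hp0 : (p : Ω) ≠ 0 := Nat.cast_ne_zero.2 hp.ne_zero
  have hξ0 : ξ ≠ 0 := hξ.ne_zero hp.ne_zero
  have h1 : ∀ i ∈ Finset.range p,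
      ((p : Ω)⁻¹ * (γ ^ i)⁻¹ * ∑ j ∈ Finset.range p, (ξ ^ (i * j))⁻¹ * y j) * (ξ ^ k * γ) ^ i =
      ∑ j ∈ Finset.range p, (p : Ω)⁻¹ * y j * (ξ ^ k * (ξ ^ j)⁻¹) ^ i := by
    intro i _
    have h2 : (γ ^ i)⁻¹ * γ ^ i = 1 := inv_mul_cancel₀ (pow_ne_zero _ hγ)
    calc ((p : Ω)⁻¹ * (γ ^ i)⁻¹ * ∑ j ∈ Finset.range p, (ξ ^ (i * j))⁻¹ * y j) * (ξ ^ k * γ) ^ i
        = ((p : Ω)⁻¹ * (ξ ^ k) ^ i * ∑ j ∈ Finset.range p, (ξ ^ (i * j))⁻¹ * y j) *
          ((γ ^ i)⁻¹ * γ ^ i) := by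
          rw [mul_pow]
          ring
      _ = (p : Ω)⁻¹ * (ξ ^ k) ^ i * ∑ j ∈ Finset.range p, (ξ ^ (i * j))⁻¹ * y j := by
          rw [h2, mul_one]
      _ = _ := by
          rw [Finset.mul_sum]
          refine Finset.sum_congr rfl fun j _ => ?_
          rw [mul_pow, inv_pow, ← pow_mul ξ j i, mul_comm j i]
          ring
  rw [Finset.sum_congr rfl h1, Finset.sum_comm]
  have h3 : ∀ j ∈ Finset.range p, ∑ i ∈ Finset.range p,
      (p : Ω)⁻¹ * y j * (ξ ^ k * (ξ ^ j)⁻¹) ^ i = if j = k then y k else 0 := by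
    intro j hj
    rw [← Finset.mul_sum]
    by_cases hjk : j = k
    · rw [if_pos hjk, hjk, mul_inv_cancel₀ (pow_ne_zero _ hξ0)]
      simp only [one_pow, Finset.sum_const, Finset.card_range, nsmul_eq_mul, mul_one]
      rw [mul_comm _ (p : Ω), ← mul_assoc, mul_inv_cancel₀ hp0, one_mul]
    · rw [if_neg hjk]
      have h4 : ξ ^ k * (ξ ^ j)⁻¹ ≠ 1 := by
        intro h
        have h5 : ξ ^ k = ξ ^ j := by
          rw [← one_mul (ξ ^ j), ← h, mul_assoc, inv_mul_cancel₀ (pow_ne_zero _ hξ0), mul_one]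
        exact hjk (hξ.pow_inj hk (Finset.mem_range.1 hj) h5).symm
      have h6 : (ξ ^ k * (ξ ^ j)⁻¹) ^ p = 1 := by
        rw [mul_pow, inv_pow, ← pow_mul, ← pow_mul, mul_comm k, mul_comm j, pow_mul, pow_mul,
          hξ.pow_eq_one, one_pow, one_pow, inv_one, mul_one]
      rw [geom_sum_eq h4, h6, sub_self, zero_div, mul_zero]
  rw [Finset.sum_congr rfl h3, Finset.sum_ite_eq' (Finset.range p) k, if_pos (Finset.mem_range.2 hk)]

section

variable {K : Type} [Field K] [NumberField K] {Ω : Type} [Field Ω] [Algebra K Ω]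
    [IsAlgClosure K Ω] {p : ℕ} {ζ : K}

private theorem cv_pow (a : Kˣ) (σ : Gal(Ω/K)) (n : ℕ) :
    kk p ζ a (σ ^ n) = n * kk p ζ a σ := by
  unfold kk
  rw [map_pow, toAdd_pow, nsmul_eq_mul]

private theorem cv_inv (a : Kˣ) (σ : Gal(Ω/K)) : kk p ζ a σ⁻¹ = -kk p ζ a σ := by
  unfold kk
  rw [map_inv, toAdd_inv]

private theorem cv_conj (a : Kˣ) (σ τ : Gal(Ω/K)) : kk p ζ a (σ⁻¹ * τ * σ) = kk p ζ a τ := by
  rw [kk_mul, kk_mul, cv_inv]
  ring

/-- the conclusion from the values -/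
private theorem cv_fin (hp : p.Prime) (hζ : IsPrimitiveRoot ζ p) (H : Subgroup Gal(Ω/K))
    (d : Kˣ) {γ : Ω} (hγ : γ ≠ 0) (y : ℕ → Ω)
    (hy : ∏ k ∈ Finset.range p, y k = algebraMap K Ω (d : K))
    (hfix : ∀ i, ∀ σ ∈ H, σ ((γ ^ i)⁻¹ * ∑ j ∈ Finset.range p,
      (algebraMap K Ω ζ ^ (i * j))⁻¹ * y j) = (γ ^ i)⁻¹ * ∑ j ∈ Finset.range p,
      (algebraMap K Ω ζ ^ (i * j))⁻¹ * y j) :
    ∃ a : ℕ → Ω, (∀ i, ∀ σ ∈ H, σ (a i) = a i) ∧
      ∏ k ∈ Finset.range p, ∑ i ∈ Finset.range p, a i * (algebraMap K Ω ζ ^ k * γ) ^ i =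
        algebraMap K Ω (d : K) := by
  have hcz : CharZero Ω := charZero_of_injective_algebraMap (algebraMap K Ω).injective
  have hz : IsPrimitiveRoot (algebraMap K Ω ζ) p :=
    hζ.map_of_injective (algebraMap K Ω).injective
  refine ⟨fun i => (p : Ω)⁻¹ * (γ ^ i)⁻¹ * ∑ j ∈ Finset.range p,
    (algebraMap K Ω ζ ^ (i * j))⁻¹ * y j, fun i σ hσ => ?_, ?_⟩
  · simp only
    rw [mul_assoc, map_mul, hfix i σ hσ, map_inv₀, map_natCast]
  · rw [← hy]
    refine Finset.prod_congr rfl fun k hk => ?_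
    exact cnv_lag hp hz hγ y k (Finset.mem_range.1 hk)

/-- the exponential -/
private def cvE (p : ℕ) (ζ : K) (Ω : Type) [Field Ω] [Algebra K Ω] (a : ZMod p) : Ω :=
  algebraMap K Ω ζ ^ a.val

private theorem cvE_add (hp : p.Prime) (hζ : IsPrimitiveRoot ζ p) (a b : ZMod p) :
    cvE p ζ Ω (a + b) = cvE p ζ Ω a * cvE p ζ Ω b := gkus_pow_add hζ hp a b

private theorem cvE_zero : cvE p ζ Ω 0 = 1 := by
  unfold cvE
  rw [ZMod.val_zero, pow_zero]

private theorem cvE_ne (hp : p.Prime) (hζ : IsPrimitiveRoot ζ p) (a : ZMod p) :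
    cvE p ζ Ω a ≠ 0 :=
  pow_ne_zero _ ((hζ.map_of_injective (algebraMap K Ω).injective).ne_zero hp.ne_zero)

private theorem cvE_map (σ : Gal(Ω/K)) (a : ZMod p) : σ (cvE p ζ Ω a) = cvE p ζ Ω a := by
  unfold cvE
  rw [map_pow, AlgEquiv.commutes]

private theorem cv_case2 (hp : p.Prime) (hζ : IsPrimitiveRoot ζ p) (H : Subgroup Gal(Ω/K))
    (c d : Kˣ) {γ : Ω} (hγ : γ ^ p = algebraMap K Ω (c : K)) {l : Gal(Ω/K) → ZMod p}
    (hlev : Lev l) (hl : ∀ σ ∈ H, ∀ τ ∈ H, l (σ * τ) = l σ + l τ + cu p ζ c d σ τ)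
    {s : Gal(Ω/K)} (hs : s ∈ H) (hs1 : kk p ζ c s = 1) :
    ∃ a : ℕ → Ω, (∀ i, ∀ σ ∈ H, σ (a i) = a i) ∧
      ∏ k ∈ Finset.range p, ∑ i ∈ Finset.range p, a i * (algebraMap K Ω ζ ^ k * γ) ^ i =
        algebraMap K Ω (d : K) := by
  have hp0 : NeZero p := ⟨hp.ne_zero⟩
  have hγ0 : γ ≠ 0 := gkum_ne hp c γ hγ
  obtain ⟨E, hE, hEl⟩ := hlev
  have hl1 : l 1 = 0 := by
    have h := hl 1 H.one_mem 1 H.one_mem
    rw [mul_one, cu, kk_one, zero_mul, add_zero] at h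
    exact left_eq_add.1 h
  -- the subgroup
  obtain ⟨U, hU⟩ : ∃ U : Subgroup Gal(Ω/K), ∀ u, u ∈ U ↔ u ∈ H ∧ kk p ζ c u = 0 := by
    refine ⟨{ carrier := {u | u ∈ H ∧ kk p ζ c u = 0}
              mul_mem' := ?_
              one_mem' := ⟨H.one_mem, kk_one c⟩
              inv_mem' := ?_ }, fun u => Iff.rfl⟩
    · rintro a b ⟨ha, ha'⟩ ⟨hb, hb'⟩
      refine ⟨H.mul_mem ha hb, ?_⟩
      rw [kk_mul, ha', hb', add_zero]
    · rintro a ⟨ha, ha'⟩
      refine ⟨H.inv_mem ha, ?_⟩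
      rw [cv_inv, ha', neg_zero]
  obtain ⟨χ, hχ⟩ : ∃ χ : U →* Multiplicative (ZMod p), ∀ u : U,
      Multiplicative.toAdd (χ u) = l (u : Gal(Ω/K)) := by
    refine ⟨{ toFun := fun u => Multiplicative.ofAdd (l (u : Gal(Ω/K)))
              map_one' := ?_
              map_mul' := ?_ }, fun u => rfl⟩
    · rw [Subgroup.coe_one, hl1]
      rfl
    · intro u v
      have hu := (hU _).1 u.2
      have hv := (hU _).1 v.2
      rw [Subgroup.coe_mul, hl _ hu.1 _ hv.1, cu, hu.2, zero_mul, add_zero]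
      rfl
  obtain ⟨B, hB0, hB⟩ := kum_sub hp hζ U χ E (by
    intro u hu
    have h1 := hEl 1 _ hu
    rw [one_mul, hl1] at h1
    apply Multiplicative.toAdd.injective
    rw [hχ, h1]
    rfl)
  have hBu : ∀ u ∈ U, u B = cvE p ζ Ω (l u) * B := by
    intro u hu
    have h := hB ⟨u, hu⟩
    rw [hχ] at h
    exact h
  obtain ⟨D, hD⟩ := gkum_root (K := K) (Ω := Ω) hp d
  have hDu : ∀ u : Gal(Ω/K), u D = cvE p ζ Ω (kk p ζ d u) * D := fun u => kk_root hp hζ d D hD u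
  have hγu : ∀ u : Gal(Ω/K), u γ = cvE p ζ Ω (kk p ζ c u) * γ := fun u => kk_root hp hζ c γ hγ u
  have hUs : ∀ (k : ℕ), ∀ u ∈ U, (s ^ k)⁻¹ * u * s ^ k ∈ U := by
    intro k u hu
    obtain ⟨h1, h2⟩ := (hU u).1 hu
    refine (hU _).2 ⟨H.mul_mem (H.mul_mem (H.inv_mem (H.pow_mem hs k)) h1) (H.pow_mem hs k), ?_⟩
    rw [cv_conj, h2]
  have hls : ∀ u ∈ U, l (s⁻¹ * u * s) = l u - kk p ζ d u := by
    intro u hu
    obtain ⟨h1, h2⟩ := (hU u).1 hu
    have h3 : s⁻¹ * u * s ∈ H := H.mul_mem (H.mul_mem (H.inv_mem hs) h1) hs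
    have h4 := hl u h1 s hs
    have h5 := hl s hs _ h3
    rw [cu, h2, zero_mul, add_zero] at h4
    rw [cu, hs1, one_mul, cv_conj, mul_assoc, mul_inv_cancel_left, h4] at h5
    rw [mul_assoc]
    linear_combination -h5
  obtain ⟨z, hz⟩ : ∃ z : Ω, z = s B * D * B⁻¹ := ⟨_, rfl⟩
  have hzU : ∀ u ∈ U, u z = z := by
    intro u hu
    have h1 : u (s B) = cvE p ζ Ω (l (s⁻¹ * u * s)) * s B := by
      have h2 : u (s B) = s ((s⁻¹ * u * s) B) := by
        rw [← AlgEquiv.mul_apply, ← AlgEquiv.mul_apply]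
        congr 1
        group
      rw [h2]
      have h3 := hBu (s⁻¹ * u * s) (by
        have := hUs 1 u hu
        rwa [pow_one] at this)
      rw [h3, map_mul, cvE_map]
    have h4 : cvE p ζ Ω (l u) = cvE p ζ Ω (l (s⁻¹ * u * s)) * cvE p ζ Ω (kk p ζ d u) := by
      rw [← cvE_add hp hζ, hls u hu, sub_add_cancel]
    have h5 : cvE p ζ Ω (l u) ≠ 0 := cvE_ne hp hζ _
    rw [hz, map_mul, map_mul, map_inv₀, h1, hDu, hBu u hu]
    rw [mul_inv]
    have h6 : cvE p ζ Ω (l (s⁻¹ * u * s)) * cvE p ζ Ω (kk p ζ d u) * (cvE p ζ Ω (l u))⁻¹ = 1 := by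
      rw [← h4, mul_inv_cancel₀ h5]
    linear_combination s B * D * B⁻¹ * h6
  have hkn : ∀ n : ℕ, kk p ζ c (s ^ n) = n := by
    intro n
    rw [cv_pow, hs1, mul_one]
  have hln : ∀ n : ℕ, l (s ^ n) = n * l s + (∑ k ∈ Finset.range n, (k : ZMod p)) * kk p ζ d s := by
    intro n
    induction n with
    | zero => rw [pow_zero, hl1, Nat.cast_zero, Finset.range_zero, Finset.sum_empty, zero_mul,
        zero_mul, add_zero]
    | succ n ih =>
      rw [pow_succ, hl _ (H.pow_mem hs n) _ hs, cu, hkn, ih, Finset.sum_range_succ]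
      push_cast
      ring
  have hprod : ∀ n : ℕ, ∏ k ∈ Finset.range n, (s ^ k) z = (s ^ n) B * B⁻¹ *
      (cvE p ζ Ω ((∑ k ∈ Finset.range n, (k : ZMod p)) * kk p ζ d s) * D ^ n) := by
    intro n
    induction n with
    | zero =>
      rw [Finset.range_zero, Finset.prod_empty, Finset.sum_empty, zero_mul, cvE_zero, pow_zero,
        pow_zero, one_mul, mul_one, AlgEquiv.one_apply, mul_inv_cancel₀ hB0]
    | succ n ih =>
      have h1 : (s ^ n) z = (s ^ (n + 1)) B * (cvE p ζ Ω (n * kk p ζ d s) * D) *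
          ((s ^ n) B)⁻¹ := by
        rw [hz, map_mul, map_mul, map_inv₀, hDu, cv_pow, pow_succ s n, AlgEquiv.mul_apply]
      have h2 : (s ^ n) B ≠ 0 := (map_ne_zero _).2 hB0
      rw [Finset.prod_range_succ, ih, h1, Finset.sum_range_succ, add_mul, cvE_add hp hζ,
        pow_succ D n]
      have h3 : (s ^ n) B * ((s ^ n) B)⁻¹ = 1 := mul_inv_cancel₀ h2
      linear_combination (B⁻¹ * (cvE p ζ Ω ((∑ k ∈ Finset.range n, (k : ZMod p)) * kk p ζ d s) *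
        D ^ n) * (s ^ (n + 1)) B * (cvE p ζ Ω (n * kk p ζ d s) * D)) * h3
  have hspU : s ^ p ∈ U := (hU _).2 ⟨H.pow_mem hs p, by rw [hkn, ZMod.natCast_self]⟩
  have ht : (∑ k ∈ Finset.range p, (k : ZMod p)) * 2 = 0 := by
    have h1 := Finset.sum_range_id_mul_two p
    have h2 := congrArg (fun n : ℕ => (n : ZMod p)) h1
    simp only [Nat.cast_mul, Nat.cast_sum, Nat.cast_ofNat, ZMod.natCast_self, zero_mul] at h2
    exact h2
  have hd : ∏ k ∈ Finset.range p, (s ^ k) z = algebraMap K Ω (d : K) := by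
    rw [hprod, hBu _ hspU, hln, ZMod.natCast_self, zero_mul, zero_add, hD]
    have h1 : cvE p ζ Ω ((∑ k ∈ Finset.range p, (k : ZMod p)) * kk p ζ d s) *
        cvE p ζ Ω ((∑ k ∈ Finset.range p, (k : ZMod p)) * kk p ζ d s) = 1 := by
      rw [← cvE_add hp hζ]
      have h2 : (∑ k ∈ Finset.range p, (k : ZMod p)) * kk p ζ d s +
          (∑ k ∈ Finset.range p, (k : ZMod p)) * kk p ζ d s = 0 := by
        linear_combination kk p ζ d s * ht
      rw [h2, cvE_zero]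
    have h3 : B * B⁻¹ = 1 := mul_inv_cancel₀ hB0
    linear_combination (algebraMap K Ω (d : K)) * B * B⁻¹ * h1 + (algebraMap K Ω (d : K)) * h3
  refine cv_fin hp hζ H d hγ0 (fun k => (s ^ k) z) hd ?_
  intro i
  obtain ⟨a, ha⟩ : ∃ a : Ω, a = (γ ^ i)⁻¹ * ∑ j ∈ Finset.range p,
      (algebraMap K Ω ζ ^ (i * j))⁻¹ * (s ^ j) z := ⟨_, rfl⟩
  have hUa : ∀ u ∈ U, u a = a := by
    intro u hu
    have h1 : u γ = γ := by
      rw [hγu, ((hU u).1 hu).2, cvE_zero, one_mul]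
    rw [ha, map_mul, map_inv₀, map_pow, h1, map_sum]
    congr 1
    refine Finset.sum_congr rfl fun j _ => ?_
    rw [map_mul, map_inv₀, map_pow, AlgEquiv.commutes]
    congr 1
    have h2 : u ((s ^ j) z) = (s ^ j) (((s ^ j)⁻¹ * u * s ^ j) z) := by
      rw [← AlgEquiv.mul_apply, ← AlgEquiv.mul_apply]
      congr 1
      group
    rw [h2, hzU _ (hUs j u hu)]
  have hsa : s a = a := by
    have h1 : s γ = algebraMap K Ω ζ * γ := by
      rw [hγu, hs1]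
      unfold cvE
      have h2 : (1 : ZMod p).val = 1 := by
        have : Fact (1 < p) := ⟨hp.one_lt⟩
        exact ZMod.val_one p
      rw [h2, pow_one]
    have hz0 : algebraMap K Ω ζ ≠ 0 :=
      (hζ.map_of_injective (algebraMap K Ω).injective).ne_zero hp.ne_zero
    have h3 : s a = (γ ^ i)⁻¹ * ∑ j ∈ Finset.range p,
        (algebraMap K Ω ζ ^ (i * (j + 1)))⁻¹ * (s ^ (j + 1)) z := by
      rw [ha, map_mul, map_inv₀, map_pow, h1, map_sum, mul_pow, mul_inv,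
        mul_comm ((algebraMap K Ω ζ ^ i)⁻¹), mul_assoc, Finset.mul_sum]
      congr 1
      refine Finset.sum_congr rfl fun j _ => ?_
      rw [map_mul, map_inv₀, map_pow, AlgEquiv.commutes, ← AlgEquiv.mul_apply, ← pow_succ',
        ← mul_assoc, ← mul_inv, ← pow_add]
      rw [show i + i * j = i * (j + 1) by ring]
    rw [h3]
    conv_rhs => rw [ha]
    congr 1
    have h4 := Finset.sum_range_succ (fun j => (algebraMap K Ω ζ ^ (i * j))⁻¹ * (s ^ j) z) p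
    have h5 := Finset.sum_range_succ' (fun j => (algebraMap K Ω ζ ^ (i * j))⁻¹ * (s ^ j) z) p
    have h6 : (s ^ p) z = z := hzU _ hspU
    have h7 : algebraMap K Ω ζ ^ (i * p) = 1 := by
      rw [mul_comm, pow_mul, ← map_pow, hζ.pow_eq_one, map_one, one_pow]
    rw [h6, h7] at h4
    rw [mul_zero, pow_zero, pow_zero, AlgEquiv.one_apply] at h5
    rw [h4] at h5
    exact (add_right_cancel h5).symm
  have hska : ∀ k : ℕ, (s ^ k) a = a := by
    intro k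
    induction k with
    | zero => rw [pow_zero, AlgEquiv.one_apply]
    | succ k ih => rw [pow_succ, AlgEquiv.mul_apply, hsa, ih]
  intro σ hσ
  change σ _ = _
  rw [← ha]
  obtain ⟨u, hu⟩ : ∃ u, u = (s ^ (kk p ζ c σ).val)⁻¹ * σ := ⟨_, rfl⟩
  have huU : u ∈ U := by
    refine (hU _).2 ⟨?_, ?_⟩
    · rw [hu]
      exact H.mul_mem (H.inv_mem (H.pow_mem hs _)) hσ
    · rw [hu, kk_mul, cv_inv, hkn, ZMod.natCast_zmod_val, neg_add_cancel]
  have hσu : σ = s ^ (kk p ζ c σ).val * u := by rw [hu, mul_inv_cancel_left]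
  rw [hσu, AlgEquiv.mul_apply, hUa u huU, hska]

end

theorem cnv {K : Type} [Field K] [NumberField K] {Ω : Type} [Field Ω] [Algebra K Ω]
    [IsAlgClosure K Ω] {p : ℕ} (hp : p.Prime) {ζ : K} (hζ : IsPrimitiveRoot ζ p)
    (H : Subgroup Gal(Ω/K)) (c d : Kˣ) {γ : Ω} (hγ : γ ^ p = algebraMap K Ω (c : K))
    (hk : Kl (fun σ τ : Gal(Ω/K) => cu p ζ c d σ τ) (H : Set Gal(Ω/K))) :
    ∃ a : ℕ → Ω, (∀ i, ∀ σ ∈ H, σ (a i) = a i) ∧
      ∏ k ∈ Finset.range p, ∑ i ∈ Finset.range p, a i * (algebraMap K Ω ζ ^ k * γ) ^ i =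
        algebraMap K Ω (d : K) := by
  have hp0 : NeZero p := ⟨hp.ne_zero⟩
  have hpf : Fact p.Prime := ⟨hp⟩
  have hγ0 : γ ≠ 0 := gkum_ne hp c γ hγ
  by_cases h0 : ∀ σ ∈ H, kk p ζ c σ = 0
  · refine cv_fin hp hζ H d hγ0 (fun k => if k = 0 then algebraMap K Ω (d : K) else 1) ?_ ?_
    · rw [Finset.prod_eq_single 0]
      · rw [if_pos rfl]
      · intro k _ hk0
        rw [if_neg hk0]
      · intro h
        exact absurd (Finset.mem_range.2 hp.pos) h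
    · intro i σ hσ
      have h1 : σ γ = γ := by
        rw [kk_root hp hζ c γ hγ, h0 σ hσ, ZMod.val_zero, pow_zero, one_mul]
      rw [map_mul, map_inv₀, map_pow, h1, map_sum]
      congr 1
      refine Finset.sum_congr rfl fun j _ => ?_
      rw [map_mul, map_inv₀, map_pow, AlgEquiv.commutes]
      congr 1
      split_ifs
      · exact AlgEquiv.commutes _ _
      · exact map_one _
  · push Not at h0
    obtain ⟨s₀, hs₀, hne⟩ := h0
    obtain ⟨l, hlev, hl⟩ := hk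
    refine cv_case2 hp hζ H c d hγ hlev hl (H.pow_mem hs₀ (kk p ζ c s₀)⁻¹.val) ?_
    rw [cv_pow, ZMod.natCast_zmod_val, inv_mul_cancel₀ hne]

end H89.BRG
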